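import Mathlib

/-!
PROJECT FP (MP_5bfab0_co): the orders `n` of projective planes which have a collineation of prime power order without fixed points have natural
density zero.

MODULES (all in namespace `Pool.Agent.H80.FP`):
`PAR` (helper10, file Pool/Agent/H10/FP/PAR.lean):
  theorem par {n : ℕ} (h : HasFree n) : ∃ q : ℕ, q.Prime ∧ q ∣ n ^ 2 + n + 1 ∧
    ∀ p : ℕ, p.Prime → Odd (padicValNat p n) → Odd (orderOf (p : ZMod q))
`BS` (helper88, file Pool/Agent/H88/FP/BS.lean): the ranges with a bounded factor.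
  theorem bs_w (V : ℕ) (ε : ℝ) (hε : 0 < ε) : ∀ᶠ x : ℕ in Filter.atTop, ∀ S : Finset ℕ,
    (∀ n ∈ S, n ≤ x ∧ ∃ u w : ℕ, u * w = n ^ 2 + n + 1 ∧ u ≤ V ∧ w.Prime) → (S.card : ℝ) ≤ ε * x
  theorem bs_u (V : ℕ) (ε : ℝ) (hε : 0 < ε) : ∀ᶠ x : ℕ in Filter.atTop, ∀ S : Finset ℕ,
    (∀ n ∈ S, n ≤ x ∧ ∃ q : ℕ, q.Prime ∧ q ≠ 2 ∧ q ≤ V ∧
      ∀ p : ℕ, p.Prime → p ∣ n → ¬ p ^ 2 ∣ n → IsSquare (p : ZMod q)) → (S.card : ℝ) ≤ ε * x
  (Elementary sieve of Pool/Agent/H12/ST/Dens.lean, private there: copy Dens_crt, Dens_prod, Dens_count, Dens_sieve, Dens_root, Dens_two, Dens_card.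
   bs_w: Dens_sieve with S q := q.Prime ∧ q ≡ 1 mod 3 ∧ V < q, P q n := ¬ (q ∣ n²+n+1 ∧ ¬ q² ∣ n²+n+1): if V < q < N, q ∣ u w then q = w < N, so
   n² ≤ V N, boundedly many n.  bs_u: for each odd prime q ≤ V, S p := p.Prime ∧ (p : ZMod q) = a with a a non-square unit,
   P p n := ¬ (p ∣ n ∧ ¬ p² ∣ n).)
`DB`, `SB`, `IU`, `DY`, `AR`, `FIN` (helper80, Pool/Agent/H80/FP).
-/

set_option autoImplicit false

namespace Pool.Agent.H80.FP

open Configuration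

/-- some projective plane of order `n` has a collineation of prime power order without fixed points -/
def HasFree (n : ℕ) : Prop :=
  ∃ (P L : Type) (_ : Membership P L) (_ : Finite P) (_ : Finite L) (_ : ProjectivePlane P L),
    ProjectivePlane.order P L = n ∧
    ∃ (f : Equiv.Perm P) (g : Equiv.Perm L) (q k : ℕ), q.Prime ∧ f ^ (q ^ k) = 1 ∧
      (∀ (p : P) (l : L), f p ∈ g l ↔ p ∈ l) ∧ ∀ p, f p ≠ p

end Pool.Agent.H80.FP
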