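import Pool.Agent.H80.FP.AR
import Pool.Agent.H10.FP.PAR

/-!
FP TS: an order of a plane with a fixed point free collineation of prime power order satisfies the test `Tst`.
-/

set_option autoImplicit false

namespace Pool.Agent.H80.FP

open Configuration

/-- an element of odd multiplicative order is a square -/
theorem TS_sq {q p : ℕ} (h : Odd (orderOf (p : ZMod q))) : IsSquare (p : ZMod q) := by
  obtain ⟨t, ht⟩ := h
  have h4 := pow_orderOf_eq_one (p : ZMod q)
  rw [ht] at h4
  refine ⟨(p : ZMod q) ^ (t + 1), ?_⟩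
  have h5 : (p : ZMod q) ^ (t + 1) * (p : ZMod q) ^ (t + 1) = (p : ZMod q) ^ (2 * t + 1) * p := by
    ring
  rw [h5, h4, one_mul]

theorem TS_val {p n : ℕ} (hp : p.Prime) (h1 : p ∣ n) (h2 : ¬ p ^ 2 ∣ n) : padicValNat p n = 1 := by
  have hn : n ≠ 0 := by
    rintro rfl
    exact h2 (dvd_zero _)
  have : Fact p.Prime := ⟨hp⟩
  have h3 : 1 ≤ padicValNat p n := (padicValNat_dvd_iff_le hn).1 (by simpa using h1)
  have h4 : ¬ 2 ≤ padicValNat p n := fun h => h2 ((padicValNat_dvd_iff_le hn).2 h)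
  omega

theorem tst_of_free {n : ℕ} (h : HasFree n) : 1 ≤ n ∧ Tst n := by
  constructor
  · obtain ⟨P, L, _, _, _, _, hn, -⟩ := h
    have := ProjectivePlane.one_lt_order P L
    omega
  · obtain ⟨q, hq, hqn, h1⟩ := par h
    refine ⟨q, hq, hqn, fun p hp hpn hp2 => TS_sq (h1 p hp ?_)⟩
    rw [TS_val hp hpn hp2]
    decide

end Pool.Agent.H80.FP
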