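import Pool.Agent.H80.FP.FR
import Pool.Agent.H80.FP.TS
import Pool.Agent.H88.FP.BR

/-!
FP RATE: at most `C x log log x / (log x)^(1/4)` integers `n ≤ x` satisfy `Tst n`; in particular at most so many are orders of projective planes
with a collineation of prime power order without fixed points.
-/

set_option autoImplicit false

namespace Pool.Agent.H80.FP

open Finset

theorem tst_rate : ∃ C : ℝ, 0 < C ∧ ∀ x : ℕ, 16 ≤ x → ∀ S : Finset ℕ,
    (∀ n ∈ S, 1 ≤ n ∧ n ≤ x ∧ Tst n) →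
      (S.card : ℝ) ≤ C * x * Real.log (Real.log x) / Real.log x ^ (1 / 4 : ℝ) :=
  tst_rate_of bw_rate bu_rate

theorem rate_of (Q : ℕ → Prop) (hQ : ∀ n, Q n → 1 ≤ n ∧ Tst n) : ∃ C : ℝ, 0 < C ∧ ∀ x : ℕ, 16 ≤ x →
    ((Set.ncard {n : ℕ | n ≤ x ∧ Q n} : ℕ) : ℝ) ≤
      C * x * Real.log (Real.log x) / Real.log x ^ (1 / 4 : ℝ) := by
  classical
  obtain ⟨C, hC, h⟩ := tst_rate
  refine ⟨C, hC, fun x hx => ?_⟩
  have h1 : {n : ℕ | n ≤ x ∧ Q n} = (((range (x + 1)).filter Q : Finset ℕ) : Set ℕ) := by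
    ext n
    simp only [coe_filter, mem_range, Set.mem_ofPred_eq, Nat.lt_succ_iff]
  rw [h1, Set.ncard_coe_finset]
  refine h x hx _ ?_
  intro n hn
  obtain ⟨h2, h3⟩ := mem_filter.1 hn
  have h4 := hQ n h3
  exact ⟨h4.1, Nat.lt_succ_iff.1 (mem_range.1 h2), h4.2⟩

end Pool.Agent.H80.FP
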