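import Pool.Agent.H80.FP.Defs

/-!
FP AR: reciprocity.  If the prime `q` divides `n²+n+1 = u w`, q = u or q = w, p ≡ 1 mod 4 is a prime divisor of n and p is a square mod q, then u is
a square mod p: (q/p) = (p/q) = 1, and u w ≡ 1 mod p.
-/

set_option autoImplicit false

namespace Pool.Agent.H80.FP

/-- the test: every prime which divides `n` exactly once is a square modulo some prime factor `q` of `n²+n+1` (the same `q` for all) -/
def Tst (n : ℕ) : Prop :=
  ∃ q : ℕ, q.Prime ∧ q ∣ n ^ 2 + n + 1 ∧ ∀ p : ℕ, p.Prime → p ∣ n → ¬ p ^ 2 ∣ n → IsSquare (p : ZMod q)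

theorem AR_odd {n q : ℕ} (h : q ∣ n ^ 2 + n + 1) : q ≠ 2 := by
  rintro rfl
  have h1 : Even (n ^ 2 + n) := by
    have : n ^ 2 + n = n * (n + 1) := by ring
    rw [this]
    exact Nat.even_mul_succ_self n
  have h2 := h1.add_one
  rw [← Nat.not_even_iff_odd] at h2
  exact h2 (even_iff_two_dvd.2 h)

theorem AR_rec {n q p : ℕ} (hq : q.Prime) (hqn : q ∣ n ^ 2 + n + 1) (hp : p.Prime) (hp4 : p % 4 = 1)
    (h : IsSquare (p : ZMod q)) : IsSquare (q : ZMod p) := by
  have : Fact p.Prime := ⟨hp⟩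
  have : Fact q.Prime := ⟨hq⟩
  exact (ZMod.exists_sq_eq_prime_iff_of_mod_four_eq_one hp4 (AR_odd hqn)).2 h

/-- the other factor -/
theorem AR_other {n u w p : ℕ} (huw : u * w = n ^ 2 + n + 1) (hpn : p ∣ n)
    (h : IsSquare (w : ZMod p)) : IsSquare (u : ZMod p) := by
  have h1 : (u : ZMod p) * (w : ZMod p) = 1 := by
    have h2 : ((u * w : ℕ) : ZMod p) = ((n ^ 2 + n + 1 : ℕ) : ZMod p) := by rw [huw]
    push_cast at h2
    rw [h2, (ZMod.natCast_eq_zero_iff n p).2 hpn]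
    ring
  obtain ⟨a, ha⟩ := h
  refine ⟨(u : ZMod p) * a, ?_⟩
  have : (u : ZMod p) = u * (u * w) := by rw [h1, mul_one]
  calc (u : ZMod p) = u * (u * w) := this
    _ = u * (u * (a * a)) := by rw [ha]
    _ = u * a * (u * a) := by ring

end Pool.Agent.H80.FP
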