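import Pool.Agent.H80.FP.DZ
import Pool.Agent.H80.FP.AR

/-!
FP FR: the rate.  `tst_rate_of`: from the two ranges with bounded `u` (bw_rate, bu_rate) and DZ.

m = log₂ x, J = √m, V = 2^J, y = m, z = 2^(m/(2K)).
-/

set_option autoImplicit false

namespace Pool.Agent.H80.FP

open Finset Pool.Agent.H37.PPC Pool.Agent.H37.PPD

private theorem FR_ll16 {x : ℕ} (hx : 16 ≤ x) : 1 ≤ Real.log (Real.log x) := by
  have h1 : Real.log 16 ≤ Real.log x := Real.log_le_log (by norm_num) (by exact_mod_cast hx)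
  have h2 : Real.log 16 = 4 * Real.log 2 := by
    rw [show (16 : ℝ) = 2 ^ 4 by norm_num, Real.log_pow]; norm_num
  have h3 := Real.log_two_gt_d9
  have h4 : Real.exp 1 ≤ Real.log x := by
    have := Real.exp_one_lt_d9
    rw [h2] at h1
    linarith
  calc (1 : ℝ) = Real.log (Real.exp 1) := (Real.log_exp 1).symm
    _ ≤ _ := Real.log_le_log (Real.exp_pos 1) h4

/-- numbers divisible by a large square -/
private theorem FR_sq (y x : ℕ) (hy : 1 ≤ y) (S : Finset ℕ)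
    (hS : ∀ n ∈ S, 1 ≤ n ∧ n ≤ x ∧ ∃ p : ℕ, y < p ∧ p ^ 2 ∣ n) : (S.card : ℝ) ≤ 2 / y * x := by
  classical
  have h1 : S ⊆ (Ioo y (x + 1)).biUnion fun p => (Ioc 0 x).filter fun n => p ^ 2 ∣ n := by
    intro n hn
    obtain ⟨hn1, hnx, p, hp, hpn⟩ := hS n hn
    rw [mem_biUnion]
    refine ⟨p, mem_Ioo.2 ⟨hp, ?_⟩, mem_filter.2 ⟨mem_Ioc.2 ⟨hn1, hnx⟩, hpn⟩⟩
    have h2 := Nat.le_of_dvd hn1 hpn
    have h3 : p ≤ p ^ 2 := Nat.le_self_pow (by norm_num) p
    omega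
  have h2 : ∀ p ∈ Ioo y (x + 1), ((((Ioc 0 x).filter fun n => p ^ 2 ∣ n).card : ℕ) : ℝ) ≤
      x * ((p : ℝ) ^ 2)⁻¹ := by
    intro p _
    rw [Nat.Ioc_filter_dvd_card_eq_div]
    have h3 := Nat.cast_div_le (m := x) (n := p ^ 2) (α := ℝ)
    push_cast at h3
    rw [div_eq_mul_inv] at h3
    exact h3
  have h3 : (S.card : ℝ) ≤ ∑ p ∈ Ioo y (x + 1), ((((Ioc 0 x).filter fun n => p ^ 2 ∣ n).card : ℕ) : ℝ) := by
    exact_mod_cast (card_le_card h1).trans card_biUnion_le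
  refine h3.trans ((sum_le_sum h2).trans ?_)
  rw [← mul_sum]
  have h4 := sum_Ioo_inv_sq_le (α := ℝ) y (x + 1)
  have hy' : (0 : ℝ) < y := by exact_mod_cast hy
  have h5 : (2 : ℝ) / ((y : ℝ) + 1) ≤ 2 / y :=
    div_le_div_of_nonneg_left (by norm_num) hy' (by linarith)
  have hx0 : (0 : ℝ) ≤ x := Nat.cast_nonneg x
  calc (x : ℝ) * ∑ p ∈ Ioo y (x + 1), ((p : ℝ) ^ 2)⁻¹ ≤ x * (2 / y) :=
        mul_le_mul_of_nonneg_left (h4.trans h5) hx0
    _ = 2 / y * x := by ring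

/-- reciprocity: the right symbol -/
theorem FR_sg {n q p : ℕ} (hq : q.Prime) (hqn : q ∣ n ^ 2 + n + 1) (hp : p.Prime) (hp5 : 5 ≤ p)
    (hpn : p ∣ n) (h : IsSquare (p : ZMod q)) : Sg (decide (q % 4 = 1)) p (q : ZMod p) := by
  have : Fact p.Prime := ⟨hp⟩
  have : Fact q.Prime := ⟨hq⟩
  have hq2 := AR_odd hqn
  unfold Sg
  by_cases hs : (decide (q % 4 = 1)) = true ∨ p % 4 = 1
  · rw [if_pos hs]
    rcases hs with hs | hs
    · have hq1 : q % 4 = 1 := of_decide_eq_true hs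
      exact (ZMod.exists_sq_eq_prime_iff_of_mod_four_eq_one hq1 (by omega : p ≠ 2)).1 h
    · exact (ZMod.exists_sq_eq_prime_iff_of_mod_four_eq_one hs hq2).2 h
  · rw [if_neg hs]
    push Not at hs
    obtain ⟨hs1, hs2⟩ := hs
    have hq1 : q % 4 ≠ 1 := fun h1 => hs1 (decide_eq_true h1)
    have hqo := hq.eq_two_or_odd.resolve_left hq2
    have hpo := hp.eq_two_or_odd.resolve_left (by omega)
    have hpq : p ≠ q := by
      rintro rfl
      have h1 : p ∣ n ^ 2 + n := by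
        have : n ^ 2 + n = n * (n + 1) := by ring
        rw [this]
        exact Dvd.dvd.mul_right hpn _
      have h2 := (Nat.dvd_add_right h1).1 hqn
      have := Nat.le_of_dvd one_pos h2
      omega
    intro h1
    exact (ZMod.exists_sq_eq_prime_iff_of_mod_four_eq_three (by omega) (by omega) hpq).1 h1 h

theorem FR_other {n u w p : ℕ} {σ : Bool} (huw : u * w = n ^ 2 + n + 1) (hpn : p ∣ n)
    (h : Sg σ p (w : ZMod p)) : Sg σ p (u : ZMod p) := by
  unfold Sg at h ⊢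
  split_ifs at h ⊢ with hs
  · exact AR_other huw hpn h
  · intro h1
    exact h (AR_other (by rw [mul_comm]; exact huw) hpn h1)

theorem tst_rate_of
    (hbw : ∃ (K : ℕ) (C : ℝ), 1 ≤ K ∧ 0 < C ∧ ∀ x V z : ℕ, 2 ≤ V → V ≤ z → z ^ K ≤ x → ∀ S : Finset ℕ,
      (∀ n ∈ S, 1 ≤ n ∧ n ≤ x ∧ ∃ u w : ℕ, u * w = n ^ 2 + n + 1 ∧ u ≤ V ∧ w.Prime) →
      (S.card : ℝ) ≤ C * x * (Real.log V / Real.log z))
    (hbu : ∃ (K : ℕ) (C : ℝ), 1 ≤ K ∧ 0 < C ∧ ∀ x y V z : ℕ, 2 ≤ V → 2 ≤ y → 2 ≤ z →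
      V * z ^ K ≤ x → ∀ S : Finset ℕ,
      (∀ n ∈ S, 1 ≤ n ∧ n ≤ x ∧ ∃ q : ℕ, q.Prime ∧ q ≠ 2 ∧ q ≤ V ∧ q ∣ n ^ 2 + n + 1 ∧
        ∀ p : ℕ, p.Prime → y < p → p ∣ n → IsSquare (p : ZMod q)) →
      (S.card : ℝ) ≤ C * x * (Real.log (Real.log V) + C) *
        (Real.log (y * V) / Real.log z) ^ (1 / 2 : ℝ)) :
    ∃ C : ℝ, 0 < C ∧ ∀ x : ℕ, 16 ≤ x → ∀ S : Finset ℕ, (∀ n ∈ S, 1 ≤ n ∧ n ≤ x ∧ Tst n) →
      (S.card : ℝ) ≤ C * x * Real.log (Real.log x) / Real.log x ^ (1 / 4 : ℝ) := by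
  classical
  obtain ⟨K1, C1, hK1, hC1, H1⟩ := hbw
  obtain ⟨K2, C2, hK2, hC2, H2⟩ := hbu
  obtain ⟨C3, hC3, H3⟩ := DZ
  obtain ⟨K, hK⟩ : ∃ K, K = K1 + K2 := ⟨_, rfl⟩
  have hKp : 1 ≤ K := by omega
  have hKr : (1 : ℝ) ≤ K := by exact_mod_cast hKp
  obtain ⟨D, hD⟩ : ∃ D : ℝ, D = 2 + C3 * 4 + C1 * (4 * K) + C2 * (1 + C2) * (24 * K) := ⟨_, rfl⟩
  have hD0 : 0 < D := by rw [hD]; positivity
  refine ⟨16 * K ^ 2 + 2 * D, by positivity, ?_⟩
  intro x hx S hS
  have hx0 : (0 : ℝ) < x := by exact_mod_cast (by omega : 0 < x)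
  have hLL : 1 ≤ Real.log (Real.log x) := FR_ll16 hx
  have hlx : 1 ≤ Real.log x := by
    have h1 : Real.exp 1 ≤ x := by
      have := Real.exp_one_lt_d9
      have : (16 : ℝ) ≤ x := by exact_mod_cast hx
      linarith
    rw [Real.le_log_iff_exp_le hx0]
    exact h1
  have hlx0 : 0 < Real.log x := by linarith
  obtain ⟨LX, hLX⟩ : ∃ LX, LX = Real.log x ^ (1 / 4 : ℝ) := ⟨_, rfl⟩
  have hLX0 : 0 < LX := by rw [hLX]; exact Real.rpow_pos_of_pos hlx0 _
  obtain ⟨G, hG⟩ : ∃ G, G = (x : ℝ) * Real.log (Real.log x) / LX := ⟨_, rfl⟩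
  have hG0 : 0 ≤ G := by rw [hG]; positivity
  have hgoal : (16 * (K : ℝ) ^ 2 + 2 * D) * x * Real.log (Real.log x) / Real.log x ^ (1 / 4 : ℝ) =
      16 * K ^ 2 * G + 2 * D * G := by
    rw [hG, hLX]
    ring
  rw [hgoal]
  obtain ⟨m, hm⟩ : ∃ m, m = Nat.log 2 x := ⟨_, rfl⟩
  have hm1 : 2 ^ m ≤ x := by rw [hm]; exact Nat.pow_log_le_self 2 (by omega)
  have hm2 : x < 2 ^ (m + 1) := by rw [hm]; exact Nat.lt_pow_succ_log_self (by norm_num) _
  have hlog2 := Real.log_two_gt_d9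
  have hlog2' := Real.log_two_lt_d9
  have hl1 : m * Real.log 2 ≤ Real.log x := by
    rw [← Real.log_pow]
    apply Real.log_le_log (by positivity)
    exact_mod_cast hm1
  have hl2 : Real.log x ≤ (m + 1) * Real.log 2 := by
    have h1 : Real.log x ≤ Real.log ((2 : ℝ) ^ (m + 1)) := by
      apply Real.log_le_log hx0
      exact_mod_cast hm2.le
    rw [Real.log_pow] at h1
    push_cast at h1
    exact h1
  rcases Nat.lt_or_ge m (16 * K ^ 2) with hmK | hmK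
  · -- trivial bound
    have h1 : S ⊆ Icc 1 x := fun n hn => mem_Icc.2 ⟨(hS n hn).1, (hS n hn).2.1⟩
    have h2 : (S.card : ℝ) ≤ x := by
      have := card_le_card h1
      rw [Nat.card_Icc, Nat.add_sub_cancel] at this
      exact_mod_cast this
    have h3 : LX ≤ 16 * (K : ℝ) ^ 2 := by
      have h4 : Real.log x ≤ 16 * (K : ℝ) ^ 2 := by
        have h5 : ((m + 1 : ℕ) : ℝ) ≤ 16 * (K : ℝ) ^ 2 := by exact_mod_cast hmK
        push_cast at h5
        have h6 : (0 : ℝ) ≤ (m : ℝ) + 1 := by positivity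
        nlinarith
      rw [hLX]
      calc Real.log x ^ (1 / 4 : ℝ) ≤ Real.log x ^ (1 : ℝ) :=
            Real.rpow_le_rpow_of_exponent_le hlx (by norm_num)
        _ = Real.log x := Real.rpow_one _
        _ ≤ _ := h4
    have h4 : (x : ℝ) ≤ 16 * K ^ 2 * G := by
      rw [hG, mul_div_assoc', le_div_iff₀ hLX0]
      calc (x : ℝ) * LX ≤ x * (16 * (K : ℝ) ^ 2) := mul_le_mul_of_nonneg_left h3 hx0.le
        _ = 16 * (K : ℝ) ^ 2 * (x * 1) := by ring
        _ ≤ 16 * (K : ℝ) ^ 2 * (x * Real.log (Real.log x)) := by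
          apply mul_le_mul_of_nonneg_left _ (by positivity)
          exact mul_le_mul_of_nonneg_left hLL hx0.le
    have h5 : 0 ≤ 2 * D * G := by positivity
    linarith
  -- the main case
  have hm16 : 16 ≤ m := by nlinarith
  have hmr : (16 : ℝ) ≤ m := by exact_mod_cast hm16
  have hm0 : (0 : ℝ) < m := by linarith
  obtain ⟨J, hJ⟩ : ∃ J, J = Nat.sqrt m := ⟨_, rfl⟩
  have hJ1 : J * J ≤ m := by rw [hJ]; exact Nat.sqrt_le m
  have hJ2 : m < (J + 1) * (J + 1) := by rw [hJ]; exact Nat.lt_succ_sqrt m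
  have hJ3 : 3 ≤ J := by
    by_contra hcon
    push Not at hcon
    have : (J + 1) * (J + 1) ≤ 3 * 3 := Nat.mul_le_mul (by omega) (by omega)
    omega
  have hJK : 4 * K ≤ J := by
    rw [hJ, Nat.le_sqrt]
    calc 4 * K * (4 * K) = 16 * K ^ 2 := by ring
      _ ≤ m := hmK
  obtain ⟨k, hk⟩ : ∃ k, k = m / (2 * K) := ⟨_, rfl⟩
  have hk1 : k * (2 * K) ≤ m := by rw [hk]; exact Nat.div_mul_le_self m _
  have hkJ : J ≤ k := by
    rw [hk, Nat.le_div_iff_mul_le (by omega)]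
    calc J * (2 * K) ≤ J * J := Nat.mul_le_mul_left J (by omega)
      _ ≤ m := hJ1
  have hk2 : m ≤ 2 * (k * (2 * K)) := by
    have h1 : m < 2 * K * k + 2 * K := by
      rw [hk]
      have := Nat.lt_mul_div_succ m (show 0 < 2 * K by omega)
      linarith
    have h2 : 2 * K ≤ k * (2 * K) := Nat.le_mul_of_pos_left _ (by omega)
    nlinarith
  have hkK : k * K ≤ m / 2 := by
    rw [Nat.le_div_iff_mul_le (by norm_num)]
    calc k * K * 2 = k * (2 * K) := by ring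
      _ ≤ m := hk1
  have hV2 : 2 ≤ 2 ^ J := by
    calc 2 = 2 ^ 1 := by norm_num
      _ ≤ 2 ^ J := Nat.pow_le_pow_right (by norm_num) (by omega)
  have hVz : 2 ^ J ≤ 2 ^ k := Nat.pow_le_pow_right (by norm_num) hkJ
  have hz2 : 2 ≤ 2 ^ k := hV2.trans hVz
  have hzK1 : (2 ^ k) ^ K1 ≤ x := by
    rw [← pow_mul]
    refine (Nat.pow_le_pow_right (by norm_num) ?_).trans hm1
    calc k * K1 ≤ k * K := Nat.mul_le_mul_left k (by omega)
      _ ≤ m / 2 := hkK
      _ ≤ m := Nat.div_le_self m 2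
  have hzK2 : 2 ^ J * (2 ^ k) ^ K2 ≤ x := by
    rw [← pow_mul, ← pow_add]
    refine (Nat.pow_le_pow_right (by norm_num) ?_).trans hm1
    have h1 : k * K2 ≤ m / 2 := (Nat.mul_le_mul_left k (by omega)).trans hkK
    have h2 : J ≤ m / 2 := by
      rw [Nat.le_div_iff_mul_le (by norm_num)]
      calc J * 2 ≤ J * J := Nat.mul_le_mul_left J (by omega)
        _ ≤ m := hJ1
    omega
  set S1 := S.filter fun n => ∃ p : ℕ, m < p ∧ p ^ 2 ∣ n with hS1
  set S2 := S.filter fun n => n ≤ x ∧ ∃ (b σ : Bool) (u w : ℕ), Ce (m + 1) n u w b σ ∧ 2 ^ J < u with hS2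
  set S3 := S.filter fun n => 1 ≤ n ∧ n ≤ x ∧ ∃ u w : ℕ, u * w = n ^ 2 + n + 1 ∧ u ≤ 2 ^ J ∧ w.Prime with hS3
  set S4 := S.filter fun n => (1 ≤ n ∧ n ≤ x ∧ ∃ q : ℕ, q.Prime ∧ q ≠ 2 ∧ q ≤ 2 ^ J ∧
      q ∣ n ^ 2 + n + 1 ∧ ∀ p : ℕ, p.Prime → m < p → p ∣ n → IsSquare (p : ZMod q)) with hS4
  have hsub : S ⊆ (S1 ∪ S2) ∪ (S3 ∪ S4) := by
    intro n hn
    obtain ⟨hn1, hnx, q, hq, hqn, hsq⟩ := hS n hn
    rw [mem_union, mem_union, mem_union]
    by_cases h1 : ∃ p : ℕ, m < p ∧ p ^ 2 ∣ n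
    · exact Or.inl (Or.inl (mem_filter.2 ⟨hn, h1⟩))
    push Not at h1
    have hodd := AR_odd hqn
    obtain ⟨t, ht⟩ := hqn
    have hqn : q ∣ n ^ 2 + n + 1 := ⟨t, ht⟩
    have hqs : ∀ p : ℕ, p.Prime → 5 ≤ p → m + 1 ≤ p → p ∣ n →
        Sg (decide (q % 4 = 1)) p (q : ZMod p) := by
      intro p hp hp5 hpy hpn
      exact FR_sg hq hqn hp hp5 hpn (hsq p hp hpn (h1 p (by omega)))
    rcases le_or_gt q t with hqt | hqt
    · by_cases hV : q ≤ 2 ^ J
      · refine Or.inr (Or.inr (mem_filter.2 ⟨hn, hn1, hnx, q, hq, hodd, hV, hqn, ?_⟩))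
        intro p hp hpm hpn
        exact hsq p hp hpn (h1 p hpm)
      · refine Or.inl (Or.inr (mem_filter.2 ⟨hn, hnx, true, decide (q % 4 = 1), q, t,
          ⟨ht.symm, hqt, hq, hqs⟩, ?_⟩))
        omega
    · by_cases hV : t ≤ 2 ^ J
      · exact Or.inr (Or.inl (mem_filter.2 ⟨hn, hn1, hnx, t, q,
          by rw [mul_comm]; exact ht.symm, hV, hq⟩))
      · refine Or.inl (Or.inr (mem_filter.2 ⟨hn, hnx, false, decide (q % 4 = 1), t, q,
          ⟨by rw [mul_comm]; exact ht.symm, hqt.le, hq, ?_⟩, ?_⟩))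
        · intro p hp hp5 hpy hpn
          exact FR_other (by rw [mul_comm]; exact ht.symm) hpn (hqs p hp hp5 hpy hpn)
        · omega
  -- the four bounds
  have c1 : (S1.card : ℝ) ≤ 2 / m * x := by
    refine FR_sq m x (by omega) S1 ?_
    intro n hn
    have h := mem_filter.1 hn
    exact ⟨(hS n h.1).1, (hS n h.1).2.1, h.2⟩
  have c2 := H3 (m + 1) x J (by omega) S2 fun n hn => (mem_filter.1 hn).2
  have c3 := H1 x (2 ^ J) (2 ^ k) hV2 hVz hzK1 S3 fun n hn => (mem_filter.1 hn).2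
  have c4 := H2 x m (2 ^ J) (2 ^ k) hV2 (by omega) hz2 hzK2 S4 fun n hn => (mem_filter.1 hn).2
  have h1 : (S.card : ℝ) ≤ (S1.card : ℝ) + S2.card + (S3.card + S4.card) := by
    exact_mod_cast (card_le_card hsub).trans ((card_union_le _ _).trans
      (add_le_add (card_union_le _ _) (card_union_le _ _)))
  -- analytic part
  obtain ⟨ℓ, hℓ⟩ : ∃ ℓ, ℓ = Real.log m := ⟨_, rfl⟩
  obtain ⟨E, hE⟩ : ∃ E, E = (m : ℝ) ^ (1 / 4 : ℝ) := ⟨_, rfl⟩
  have hE1 : 1 ≤ E := by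
    rw [hE]
    exact Real.one_le_rpow (by linarith) (by norm_num)
  have hE0 : 0 < E := by linarith
  have hE2 : E ^ 4 = m := by
    rw [hE, ← Real.rpow_natCast, ← Real.rpow_mul hm0.le]
    norm_num
  have hsm : Real.sqrt m = E ^ 2 := by
    rw [hE, Real.sqrt_eq_rpow, ← Real.rpow_natCast, ← Real.rpow_mul hm0.le]
    norm_num
  have hℓ1 : 1 ≤ ℓ := by
    rw [hℓ, Real.le_log_iff_exp_le hm0]
    have := Real.exp_one_lt_d9
    linarith
  have hJr1 : (J : ℝ) ≤ E ^ 2 := by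
    rw [← hsm]
    apply Real.le_sqrt_of_sq_le
    have : ((J * J : ℕ) : ℝ) ≤ m := by exact_mod_cast hJ1
    push_cast at this
    nlinarith
  have hJr0 : (3 : ℝ) ≤ J := by exact_mod_cast hJ3
  have hJr2 : E ^ 2 ≤ 2 * J := by
    rw [← hsm, Real.sqrt_le_left (by positivity)]
    have h2 : (m : ℝ) ≤ (J + 1) * (J + 1) := by exact_mod_cast hJ2.le
    nlinarith
  have b1 : 2 / (m : ℝ) * x ≤ 2 * (x * ℓ / E) := by
    have h2 : 2 / (m : ℝ) ≤ 2 / E := by
      apply div_le_div_of_nonneg_left (by norm_num) hE0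
      rw [← hE2]
      calc E = E ^ 1 := (pow_one E).symm
        _ ≤ E ^ 4 := pow_le_pow_right₀ hE1 (by norm_num)
    calc 2 / (m : ℝ) * x ≤ 2 / E * x := mul_le_mul_of_nonneg_right h2 hx0.le
      _ = 2 * (x * 1 / E) := by ring
      _ ≤ 2 * (x * ℓ / E) := by gcongr
  have b2 : C3 * Real.exp ((1 / 2) * ll (max 5 (m + 1))) * x * (1 / Real.sqrt J) ≤
      C3 * 4 * (x * ℓ / E) := by
    have hmax : max 5 (m + 1) = m + 1 := max_eq_right (by omega)
    rw [hmax]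
    have h2 : Real.log ((m + 1 : ℕ) : ℝ) ≤ 2 * ℓ := by
      rw [hℓ]
      have h3 : ((m + 1 : ℕ) : ℝ) ≤ (m : ℝ) ^ 2 := by
        push_cast
        nlinarith
      have h4 := Real.log_le_log (by positivity) h3
      rw [Real.log_pow] at h4
      push_cast at h4 ⊢
      exact h4
    have h3 : 1 ≤ Real.log ((m + 1 : ℕ) : ℝ) := by
      have h4 : Real.log (m : ℝ) ≤ Real.log ((m + 1 : ℕ) : ℝ) :=
        Real.log_le_log hm0 (by push_cast; linarith)
      rw [← hℓ] at h4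
      linarith
    have h4 : Real.exp ((1 / 2) * ll (m + 1)) ≤ 2 * ℓ := by
      have h5 : Real.exp ((1 / 2) * ll (m + 1)) ≤ Real.exp (ll (m + 1)) := by
        apply Real.exp_le_exp.2
        have h6 : 0 ≤ ll (m + 1) := by
          unfold ll
          exact Real.log_nonneg h3
        linarith
      have h7 : Real.exp (ll (m + 1)) = Real.log ((m + 1 : ℕ) : ℝ) := by
        unfold ll
        exact Real.exp_log (by linarith)
      rw [h7] at h5
      exact h5.trans h2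
    have h5 : 1 / Real.sqrt J ≤ 2 / E := by
      have h6 : E ≤ 2 * Real.sqrt J := by
        have h7 : E ^ 2 ≤ (2 * Real.sqrt J) ^ 2 := by
          rw [mul_pow, Real.sq_sqrt (by linarith)]
          linarith
        exact (pow_le_pow_iff_left₀ hE0.le (by positivity) (by norm_num)).1 h7
      rw [div_le_div_iff₀ (Real.sqrt_pos.2 (by linarith)) hE0]
      linarith
    calc C3 * Real.exp ((1 / 2) * ll (m + 1)) * x * (1 / Real.sqrt J)
        ≤ C3 * (2 * ℓ) * x * (2 / E) := by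
          apply mul_le_mul _ h5 (by positivity) (by positivity)
          exact mul_le_mul_of_nonneg_right (mul_le_mul_of_nonneg_left h4 hC3.le) hx0.le
      _ = C3 * 4 * (x * ℓ / E) := by ring
  have hkr : (m : ℝ) ≤ 4 * K * k := by
    have h2 : (m : ℝ) ≤ 2 * (k * (2 * K)) := by exact_mod_cast hk2
    linarith
  have hk0 : (0 : ℝ) < k := by
    have h2 : (0 : ℝ) < 4 * K * k := by linarith
    by_contra hcon
    push Not at hcon
    have : 4 * (K : ℝ) * k ≤ 0 := mul_nonpos_of_nonneg_of_nonpos (by positivity) hcon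
    linarith
  have hlV : Real.log ((2 ^ J : ℕ) : ℝ) = J * Real.log 2 := by push_cast; rw [Real.log_pow]
  have hlz : Real.log ((2 ^ k : ℕ) : ℝ) = k * Real.log 2 := by push_cast; rw [Real.log_pow]
  have hl2p : 0 < Real.log 2 := by linarith
  have b3 : C1 * x * (Real.log ((2 ^ J : ℕ) : ℝ) / Real.log ((2 ^ k : ℕ) : ℝ)) ≤
      C1 * (4 * K) * (x * ℓ / E) := by
    rw [hlV, hlz, mul_div_mul_right _ _ hl2p.ne']
    have h2 : (J : ℝ) / k ≤ 4 * K / E := by
      rw [div_le_div_iff₀ hk0 hE0]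
      calc (J : ℝ) * E ≤ E ^ 2 * E ^ 2 := by
            apply mul_le_mul hJr1 _ hE0.le (by positivity)
            nlinarith
        _ = m := by rw [← hE2]; ring
        _ ≤ 4 * K * k := hkr
    calc C1 * x * ((J : ℝ) / k) ≤ C1 * x * (4 * K / E) :=
          mul_le_mul_of_nonneg_left h2 (by positivity)
      _ = C1 * (4 * K) * (x * 1 / E) := by ring
      _ ≤ C1 * (4 * K) * (x * ℓ / E) := by gcongr
  have b4 : C2 * x * (Real.log (Real.log ((2 ^ J : ℕ) : ℝ)) + C2) *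
        (Real.log (m * ((2 ^ J : ℕ) : ℝ)) / Real.log ((2 ^ k : ℕ) : ℝ)) ^ (1 / 2 : ℝ) ≤
      C2 * (1 + C2) * (24 * K) * (x * ℓ / E) := by
    have hVp : (0 : ℝ) < ((2 ^ J : ℕ) : ℝ) := by positivity
    have hlm : Real.log (m * ((2 ^ J : ℕ) : ℝ)) = ℓ + J * Real.log 2 := by
      rw [Real.log_mul hm0.ne' hVp.ne', hlV, hℓ]
    rw [hlm, hlV, hlz]
    have hℓ2 : ℓ ≤ 2 * E ^ 2 := by
      have h2 : Real.log (Real.sqrt m) ≤ Real.sqrt m := by
        have := Real.log_le_sub_one_of_pos (Real.sqrt_pos.2 hm0)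
        linarith
      rw [Real.log_sqrt hm0.le, hsm] at h2
      rw [hℓ]
      linarith
    have h2 : (ℓ + J * Real.log 2) / (k * Real.log 2) ≤ 24 * K / E ^ 2 := by
      rw [div_le_div_iff₀ (by positivity) (by positivity)]
      have h3 : ℓ + J * Real.log 2 ≤ 3 * E ^ 2 := by nlinarith
      have h4 : (k : ℝ) * (1 / 2) ≤ k * Real.log 2 :=
        mul_le_mul_of_nonneg_left (by linarith) hk0.le
      calc (ℓ + J * Real.log 2) * E ^ 2 ≤ 3 * E ^ 2 * E ^ 2 :=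
            mul_le_mul_of_nonneg_right h3 (by positivity)
        _ = 3 * m := by rw [← hE2]; ring
        _ ≤ 3 * (4 * K * k) := by linarith
        _ = 24 * K * (k * (1 / 2)) := by ring
        _ ≤ 24 * K * (k * Real.log 2) := mul_le_mul_of_nonneg_left h4 (by positivity)
    have h3 : ((ℓ + J * Real.log 2) / (k * Real.log 2)) ^ (1 / 2 : ℝ) ≤ 24 * K / E := by
      have h4 : (0 : ℝ) ≤ (ℓ + J * Real.log 2) / (k * Real.log 2) := by positivity
      rw [← Real.sqrt_eq_rpow, Real.sqrt_le_left (by positivity)]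
      refine h2.trans ?_
      rw [div_pow]
      apply div_le_div_of_nonneg_right _ (by positivity)
      nlinarith
    have hlJ : Real.log (J * Real.log 2) ≤ ℓ := by
      rw [hℓ]
      apply Real.log_le_log (by positivity)
      have h4 : (J : ℝ) ≤ m := by
        have h5 : J ≤ m := (Nat.le_mul_of_pos_left J (by omega)).trans hJ1
        exact_mod_cast h5
      nlinarith
    have h5 : Real.log (J * Real.log 2) + C2 ≤ (1 + C2) * ℓ := by nlinarith
    have h6 : 0 ≤ (1 + C2) * ℓ := by positivity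
    have h7 : 0 ≤ ((ℓ + J * Real.log 2) / (k * Real.log 2)) ^ (1 / 2 : ℝ) := by positivity
    calc C2 * x * (Real.log (J * Real.log 2) + C2) *
          ((ℓ + J * Real.log 2) / (k * Real.log 2)) ^ (1 / 2 : ℝ)
        ≤ C2 * x * ((1 + C2) * ℓ) * ((ℓ + J * Real.log 2) / (k * Real.log 2)) ^ (1 / 2 : ℝ) :=
          mul_le_mul_of_nonneg_right (mul_le_mul_of_nonneg_left h5 (by positivity)) h7
      _ ≤ C2 * x * ((1 + C2) * ℓ) * (24 * K / E) :=
          mul_le_mul_of_nonneg_left h3 (by positivity)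
      _ = C2 * (1 + C2) * (24 * K) * (x * ℓ / E) := by ring
  have hfin : x * ℓ / E ≤ 2 * G := by
    have h2 : ℓ ≤ 2 * Real.log (Real.log x) := by
      have h3 : (m : ℝ) ≤ 2 * Real.log x := by nlinarith
      have h4 : Real.log m ≤ Real.log (2 * Real.log x) := Real.log_le_log hm0 h3
      rw [Real.log_mul (by norm_num) hlx0.ne'] at h4
      rw [hℓ]
      linarith
    have h3 : LX ≤ E := by
      rw [hLX, hE]
      apply Real.rpow_le_rpow hlx0.le _ (by norm_num)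
      nlinarith
    rw [hG, mul_div_assoc', div_le_div_iff₀ hE0 hLX0]
    calc x * ℓ * LX ≤ x * (2 * Real.log (Real.log x)) * E := by
          apply mul_le_mul (mul_le_mul_of_nonneg_left h2 hx0.le) h3 hLX0.le (by positivity)
      _ = 2 * (x * Real.log (Real.log x)) * E := by ring
  have hsum : (S.card : ℝ) ≤ D * (x * ℓ / E) := by
    have h2 : D * (x * ℓ / E) = 2 * (x * ℓ / E) + C3 * 4 * (x * ℓ / E) +
        (C1 * (4 * K) * (x * ℓ / E) + C2 * (1 + C2) * (24 * K) * (x * ℓ / E)) := by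
      rw [hD]; ring
    rw [h2]
    linarith
  have h2 : D * (x * ℓ / E) ≤ D * (2 * G) := mul_le_mul_of_nonneg_left hfin hD0.le
  have h3 : 0 ≤ 16 * (K : ℝ) ^ 2 * G := by positivity
  linarith

end Pool.Agent.H80.FP
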