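import Pool.Agent.H49.PPR.D1

/-!
FP DB: local density of the excluded classes, one factor (u or w), `p ≥ 5`.

BB b y p: p divides the factor (u if b, w if not b), or p ≡ 1 mod 4, y ≤ p, p ∣ n and u is not a square mod p.
Lower bound: the two parts are disjoint; the set {p ∣ u w} is the union of {p ∣ u} and {p ∣ w}, which have the same number of elements
(symmetry (r,s,t,q) ↦ (t,q,-r,-s)).  Upper bound: BB ⊆ B1.
-/

set_option autoImplicit false

namespace Pool.Agent.H80.FP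

open Finset Pool.Agent.H37.PPC Pool.Agent.H37.PPD Pool.Agent.H37.PPE Pool.Agent.H49.PPR

/-- the factor `u` (if `b`) or `w` (if not `b`) -/
def Wn (b : Bool) (r s t q : ℤ) : ℤ := bif b then r ^ 2 + r * s + s ^ 2 else t ^ 2 + t * q + q ^ 2

/-- excluded classes mod `p` -/
def BB (b : Bool) (y p : ℕ) (r s t q : ℤ) : Prop :=
  (p : ℤ) ∣ Wn b r s t q ∨
    (p % 4 = 1 ∧ y ≤ p ∧ (p : ℤ) ∣ r * t + s * t + s * q ∧
      ¬ IsSquare ((r ^ 2 + r * s + s ^ 2 : ℤ) : ZMod p))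

private def DB_W (b : Bool) (p : ℕ) (r s t q : ZMod p) : Prop :=
  (bif b then r ^ 2 + r * s + s ^ 2 else t ^ 2 + t * q + q ^ 2) = 0

private def DB_Sf (p : ℕ) (r s t q : ZMod p) : Prop :=
  (r ^ 2 + r * s + s ^ 2) * (t ^ 2 + t * q + q ^ 2) = 0

private def DB_Fb (p : ℕ) (r s t q : ZMod p) : Prop :=
  r * t + s * t + s * q = 0 ∧ ¬ IsSquare (r ^ 2 + r * s + s ^ 2)

private def DB_B (b : Bool) (y p : ℕ) (r s t q : ZMod p) : Prop :=
  DB_W b p r s t q ∨ (p % 4 = 1 ∧ y ≤ p ∧ DB_Fb p r s t q)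

private theorem DB_hW (b : Bool) (p : ℕ) (r s t q : ℤ) :
    (p : ℤ) ∣ Wn b r s t q ↔ DB_W b p r s t q := by
  rw [LA_dvd]
  cases b <;> simp [Wn, DB_W]

private theorem DB_hS (p : ℕ) (r s t q : ℤ) :
    (p : ℤ) ∣ F1 r s t q ↔ DB_Sf p r s t q := by
  rw [LA_dvd]
  unfold F1 DB_Sf
  push_cast
  rfl

private theorem DB_hB (b : Bool) (y p : ℕ) (r s t q : ℤ) : BB b y p r s t q ↔ DB_B b y p r s t q := by
  unfold BB DB_B DB_Fb
  rw [DB_hW, LA_dvd]
  push_cast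
  rfl

theorem Per_BB (b : Bool) (y p : ℕ) : Per p (BB b y p) := by
  intro r s t q r' s' t' q' hr hs ht hq
  rw [DB_hB, DB_hB]
  rw [LA_dvd, Int.cast_sub, sub_eq_zero] at hr hs ht hq
  rw [hr, hs, ht, hq]

theorem Wn_mul (r s t q : ℤ) : Wn true r s t q * Wn false r s t q = F1 r s t q := by
  simp [Wn, F1]

theorem BB_le {b : Bool} {y p : ℕ} {r s t q : ℤ} (h : BB b y p r s t q) : B1 p r s t q := by
  rcases h with h | ⟨h1, -, h2⟩
  · left
    rw [← Wn_mul]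
    cases b
    · exact Dvd.dvd.mul_left h _
    · exact Dvd.dvd.mul_right h _
  · exact Or.inr ⟨h1, h2⟩

private theorem DB_mono (p : ℕ) (S1 S2 : ℤ → ℤ → ℤ → ℤ → Prop)
    (h : ∀ r s t q, S1 r s t q → S2 r s t q) : slc p S1 ≤ slc p S2 := by
  classical
  unfold slc
  apply card_le_card
  intro x hx
  rw [mem_filter] at hx ⊢
  exact ⟨hx.1, hx.2.1, h _ _ _ _ hx.2.2⟩

theorem slcB_upper (b : Bool) (y p : ℕ) : slc p (BB b y p) ≤ slc p (B1 p) :=
  DB_mono p _ _ fun _ _ _ _ h => BB_le h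

private theorem DB_ne {p : ℕ} [Fact p.Prime] {r s : ZMod p}
    (h : ¬ IsSquare (r ^ 2 + r * s + s ^ 2)) : r ^ 2 + r * s + s ^ 2 ≠ 0 := by
  intro h0
  apply h
  rw [h0]
  exact IsSquare.zero

private theorem DB_Fb_lower (p : ℕ) [Fact p.Prime] (h5 : 5 ≤ p) :
    (p - 1) * (p - 1) ≤ 2 * (LB_set p (DB_Fb p)).card := by
  classical
  refine (cnt_eis p h5).trans (Nat.mul_le_mul_left 2 ?_)
  apply card_le_card_of_injOn (fun z : ZMod p × ZMod p =>
    (z.1, z.2, -z.2 / (z.1 ^ 2 + z.1 * z.2 + z.2 ^ 2),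
      (z.1 + z.2) / (z.1 ^ 2 + z.1 * z.2 + z.2 ^ 2)))
  · rintro ⟨r, s⟩ hz
    have hz' : ¬ IsSquare (r ^ 2 + r * s + s ^ 2) := (mem_filter.1 hz).2
    have hu := DB_ne hz'
    refine (LB_mem_set p _ _).2 ⟨?_, ?_, hz'⟩
    · show r * ((r + s) / (r ^ 2 + r * s + s ^ 2)) - s * (-s / (r ^ 2 + r * s + s ^ 2)) = 1
      have e : r * ((r + s) / (r ^ 2 + r * s + s ^ 2)) - s * (-s / (r ^ 2 + r * s + s ^ 2)) =
          (r ^ 2 + r * s + s ^ 2) / (r ^ 2 + r * s + s ^ 2) := by ring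
      rw [e, div_self hu]
    · show r * (-s / (r ^ 2 + r * s + s ^ 2)) + s * (-s / (r ^ 2 + r * s + s ^ 2)) +
        s * ((r + s) / (r ^ 2 + r * s + s ^ 2)) = 0
      ring
  · rintro ⟨r, s⟩ _ ⟨r', s'⟩ _ h
    simp only [Prod.mk.injEq] at h
    rw [h.1, h.2.1]

private theorem DB_id {p : ℕ} (r s t q : ZMod p) (h1 : r * q - s * t = 1)
    (h3 : r * t + s * t + s * q = 0) :
    (r ^ 2 + r * s + s ^ 2) * (t ^ 2 + t * q + q ^ 2) = 1 := by
  have e : (r ^ 2 + r * s + s ^ 2) * (t ^ 2 + t * q + q ^ 2) =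
      (r * t + s * t + s * q) ^ 2 + (r * t + s * t + s * q) * (r * q - s * t) +
        (r * q - s * t) ^ 2 := by ring
  rw [e, h1, h3]
  ring

private theorem DB_disj (b : Bool) (p : ℕ) [Fact p.Prime] :
    Disjoint (LB_set p (DB_W b p)) (LB_set p (DB_Fb p)) := by
  rw [disjoint_left]
  rintro ⟨r, s, t, q⟩ hx hx'
  obtain ⟨h1, h2⟩ := (LB_mem_set p _ _).1 hx
  obtain ⟨_, h3, _⟩ := (LB_mem_set p _ _).1 hx'
  unfold DB_W at h2
  simp only at h1 h2 h3
  have e := DB_id r s t q h1 h3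
  cases b
  · rw [cond_false] at h2
    rw [h2, mul_zero] at e
    exact zero_ne_one e
  · rw [cond_true] at h2
    rw [h2, zero_mul] at e
    exact zero_ne_one e

private theorem DB_swap (p : ℕ) [Fact p.Prime] (b : Bool) :
    (LB_set p (DB_W b p)).card ≤ (LB_set p (DB_W (!b) p)).card := by
  classical
  apply card_le_card_of_injOn (fun x : ZMod p × ZMod p × ZMod p × ZMod p =>
    (x.2.2.1, x.2.2.2, -x.1, -x.2.1))
  · rintro ⟨r, s, t, q⟩ hx
    obtain ⟨h1, h2⟩ := (LB_mem_set p _ _).1 hx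
    unfold DB_W at h2
    simp only at h1 h2
    refine (LB_mem_set p _ _).2 ⟨?_, ?_⟩
    · show t * -s - q * -r = 1
      linear_combination h1
    · unfold DB_W
      simp only
      cases b
      · rw [cond_false] at h2
        simpa using h2
      · rw [cond_true] at h2
        simp only [Bool.not_true, cond_false]
        linear_combination h2
  · rintro ⟨r, s, t, q⟩ _ ⟨r', s', t', q'⟩ _ h
    simp only [Prod.mk.injEq, neg_inj] at h
    obtain ⟨h1, h2, h3, h4⟩ := h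
    rw [h1, h2, h3, h4]

private theorem DB_half (p : ℕ) [Fact p.Prime] (b : Bool) :
    (LB_set p (DB_Sf p)).card ≤ 2 * (LB_set p (DB_W b p)).card := by
  classical
  have h1 : LB_set p (DB_Sf p) ⊆ LB_set p (DB_W b p) ∪ LB_set p (DB_W (!b) p) := by
    intro x hx
    obtain ⟨h1, h2⟩ := (LB_mem_set p _ _).1 hx
    rw [mem_union]
    have h3 : DB_W b p x.1 x.2.1 x.2.2.1 x.2.2.2 ∨ DB_W (!b) p x.1 x.2.1 x.2.2.1 x.2.2.2 := by
      unfold DB_W
      unfold DB_Sf at h2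
      rcases mul_eq_zero.1 h2 with h | h
      · cases b
        · right; simpa using h
        · left; simpa using h
      · cases b
        · left; simpa using h
        · right; simpa using h
    rcases h3 with h3 | h3
    · exact Or.inl ((LB_mem_set p _ _).2 ⟨h1, h3⟩)
    · exact Or.inr ((LB_mem_set p _ _).2 ⟨h1, h3⟩)
  have h2 := (card_le_card h1).trans (card_union_le _ _)
  have h3 := DB_swap p (!b)
  rw [Bool.not_not] at h3
  omega

theorem slcB_lower (b : Bool) (y p : ℕ) (hp : p.Prime) :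
    slc p (fun r s t q => (p : ℤ) ∣ F1 r s t q) ≤ 2 * slc p (BB b y p) := by
  classical
  have : Fact p.Prime := ⟨hp⟩
  rw [LB_transfer p _ (DB_Sf p) (DB_hS p), LB_transfer p _ (DB_B b y p) (DB_hB b y p)]
  refine (DB_half p b).trans (Nat.mul_le_mul_left 2 (card_le_card ?_))
  intro x hx
  obtain ⟨a, c⟩ := (LB_mem_set p _ _).1 hx
  exact (LB_mem_set p _ _).2 ⟨a, Or.inl c⟩

theorem slcB_lower4 (b : Bool) (y p : ℕ) (hp : p.Prime) (h5 : 5 ≤ p) (h4 : p % 4 = 1) (hy : y ≤ p) :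
    slc p (fun r s t q => (p : ℤ) ∣ F1 r s t q) + (p - 1) * (p - 1) ≤ 2 * slc p (BB b y p) := by
  classical
  have : Fact p.Prime := ⟨hp⟩
  rw [LB_transfer p _ (DB_Sf p) (DB_hS p), LB_transfer p _ (DB_B b y p) (DB_hB b y p)]
  have h1 := DB_Fb_lower p h5
  have h3 := DB_half p b
  have h2 : (LB_set p (DB_W b p)).card + (LB_set p (DB_Fb p)).card ≤
      (LB_set p (DB_B b y p)).card := by
    rw [← card_union_of_disjoint (DB_disj b p)]
    apply card_le_card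
    intro x hx
    rw [mem_union] at hx
    rw [LB_mem_set]
    rcases hx with hx | hx
    · obtain ⟨a, c⟩ := (LB_mem_set p _ _).1 hx
      exact ⟨a, Or.inl c⟩
    · obtain ⟨a, c⟩ := (LB_mem_set p _ _).1 hx
      exact ⟨a, Or.inr ⟨h4, hy, c⟩⟩
  omega

private theorem DB_F1 (p : ℕ) (hp : p.Prime) (h5 : 5 ≤ p) :
    (slc p (fun r s t q => (p : ℤ) ∣ F1 r s t q) : ℝ) =
      (if p % 3 = 1 then rho p else 0) * ((p : ℝ) * ((p : ℝ) - 1) * ((p : ℝ) + 1)) := by
  have h0 : p % 3 ≠ 0 := by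
    intro h
    have h1 : 3 ∣ p := Nat.dvd_of_mod_eq_zero h
    have := (Nat.prime_dvd_prime_iff_eq Nat.prime_three hp).1 h1
    omega
  have hP : (5 : ℝ) ≤ p := by exact_mod_cast h5
  by_cases h3 : p % 3 = 1
  · rw [if_pos h3, ← dn_F1 p hp h3]
    unfold dn
    rw [LB_cast_top p hp, div_mul_cancel₀]
    have h1 : (0 : ℝ) < p := by linarith
    have h2 : (0 : ℝ) < (p : ℝ) - 1 := by linarith
    positivity
  · rw [if_neg h3, slc_F1_zero p hp (by omega) h5]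
    simp

theorem dnB_lower (b : Bool) (y p : ℕ) (hp : p.Prime) (h5 : 5 ≤ p) :
    (1 / 2) * (if p % 3 = 1 then rho p else 0) +
      (if p % 4 = 1 ∧ y ≤ p then (1 / 2) * ((1 : ℝ) / p) - ((1 : ℝ) / p - 1 / (p + 1)) else 0) ≤
      dn p (BB b y p) := by
  have hP : (5 : ℝ) ≤ p := by exact_mod_cast h5
  have h1 : (0 : ℝ) < p := by linarith
  have h2 : (0 : ℝ) < (p : ℝ) - 1 := by linarith
  have hT : 0 < (p : ℝ) * ((p : ℝ) - 1) * ((p : ℝ) + 1) := by positivity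
  have hF := DB_F1 p hp h5
  unfold dn
  rw [LB_cast_top p hp, le_div_iff₀ hT, add_mul, mul_assoc, ← hF]
  by_cases h4 : p % 4 = 1 ∧ y ≤ p
  · rw [if_pos h4]
    have h6 := slcB_lower4 b y p hp h5 h4.1 h4.2
    have h7 : (slc p (fun r s t q => (p : ℤ) ∣ F1 r s t q) : ℝ) +
        ((p : ℝ) - 1) * ((p : ℝ) - 1) ≤ 2 * (slc p (BB b y p) : ℝ) := by
      have h8 : ((p - 1 : ℕ) : ℝ) = (p : ℝ) - 1 := by
        rw [Nat.cast_sub hp.one_le, Nat.cast_one]
      rw [← h8]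
      exact_mod_cast h6
    have h9 : ((1 / 2) * ((1 : ℝ) / p) - ((1 : ℝ) / p - 1 / (p + 1))) *
        ((p : ℝ) * ((p : ℝ) - 1) * ((p : ℝ) + 1)) = ((p : ℝ) - 1) * ((p : ℝ) - 1) / 2 := by
      field_simp
      ring
    rw [h9]
    linarith
  · rw [if_neg h4, zero_mul, add_zero]
    have h6 : (slc p (fun r s t q => (p : ℤ) ∣ F1 r s t q) : ℝ) ≤ 2 * (slc p (BB b y p) : ℝ) := by
      exact_mod_cast slcB_lower b y p hp
    linarith

theorem dnB_bd (b : Bool) (y p : ℕ) (hp : p.Prime) (h5 : 5 ≤ p)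
    (h : p % 3 = 1 ∨ (p % 4 = 1 ∧ y ≤ p)) :
    0 < dn p (BB b y p) ∧ dn p (BB b y p) < 1 ∧ dn p (BB b y p) * p ≤ 6 := by
  have hP : (5 : ℝ) ≤ p := by exact_mod_cast h5
  have h1 : (0 : ℝ) < p := by linarith
  have h2 : (0 : ℝ) < (p : ℝ) - 1 := by linarith
  have hT : 0 < (p : ℝ) * ((p : ℝ) - 1) * ((p : ℝ) + 1) := by positivity
  have hrho := rho_bd p h5
  have hl := dnB_lower b y p hp h5
  have hx : 0 < (1 / 2) * ((1 : ℝ) / p) - ((1 : ℝ) / p - 1 / (p + 1)) := by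
    have e : (1 / 2) * ((1 : ℝ) / p) - ((1 : ℝ) / p - 1 / (p + 1)) =
        ((p : ℝ) - 1) / (2 * p * (p + 1)) := by
      field_simp
      ring
    rw [e]
    positivity
  have hle : dn p (BB b y p) ≤ dn p (B1 p) := by
    unfold dn
    rw [LB_cast_top p hp]
    apply div_le_div_of_nonneg_right _ hT.le
    exact_mod_cast slcB_upper b y p
  obtain ⟨-, hb1, hb2⟩ := dn1_bd p hp h5 (by tauto)
  refine ⟨?_, lt_of_le_of_lt hle hb1, (mul_le_mul_of_nonneg_right hle h1.le).trans hb2⟩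
  refine lt_of_lt_of_le ?_ hl
  by_cases h3 : p % 3 = 1
  · rw [if_pos h3]
    split_ifs
    · linarith [hrho.1]
    · linarith [hrho.1]
  · rw [if_neg h3, if_pos (h.resolve_left h3)]
    linarith

end Pool.Agent.H80.FP
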