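import Pool.Agent.H80.FP.DB

/-!
FP DC: local density of the excluded classes with all primes `p ≥ y` (rate version), `p ≥ 5`.

BC b σ y p: p divides the factor (u if b, w if not b), or y ≤ p, p ∣ n and u has the wrong quadratic symbol mod p.
Right symbol `Sg σ p`: u a square if σ or p ≡ 1 mod 4, u not a square otherwise.
Number of (r,s) with r²+rs+s² a nonzero square ≥ number of (r,s) with r²+rs+s² not a square: multiply by a fixed (a,b) with a²+ab+b² not a square,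
(r,s)(a,b) = (ra - sb, rb + sa + sb).
-/

set_option autoImplicit false

namespace Pool.Agent.H80.FP

open Finset Pool.Agent.H37.PPC Pool.Agent.H37.PPD Pool.Agent.H37.PPE Pool.Agent.H49.PPR

/-- the right symbol of `a` modulo `p` -/
def Sg (σ : Bool) (p : ℕ) (a : ZMod p) : Prop :=
  if σ = true ∨ p % 4 = 1 then IsSquare a else ¬ IsSquare a

/-- excluded classes mod `p` -/
def BC (b σ : Bool) (y p : ℕ) (r s t q : ℤ) : Prop :=
  (p : ℤ) ∣ Wn b r s t q ∨
    (y ≤ p ∧ (p : ℤ) ∣ r * t + s * t + s * q ∧ ¬ Sg σ p ((r ^ 2 + r * s + s ^ 2 : ℤ) : ZMod p))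

private def DC_W (b : Bool) (p : ℕ) (r s t q : ZMod p) : Prop :=
  (bif b then r ^ 2 + r * s + s ^ 2 else t ^ 2 + t * q + q ^ 2) = 0

private def DC_Sf (p : ℕ) (r s t q : ZMod p) : Prop :=
  (r ^ 2 + r * s + s ^ 2) * (t ^ 2 + t * q + q ^ 2) = 0

private def DC_Fb (σ : Bool) (p : ℕ) (r s t q : ZMod p) : Prop :=
  r * t + s * t + s * q = 0 ∧ ¬ Sg σ p (r ^ 2 + r * s + s ^ 2)

private def DC_B (b σ : Bool) (y p : ℕ) (r s t q : ZMod p) : Prop :=
  DC_W b p r s t q ∨ (y ≤ p ∧ DC_Fb σ p r s t q)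

private theorem DC_hW (b : Bool) (p : ℕ) (r s t q : ℤ) :
    (p : ℤ) ∣ Wn b r s t q ↔ DC_W b p r s t q := by
  rw [LA_dvd]
  cases b <;> simp [Wn, DC_W]

private theorem DC_hS (p : ℕ) (r s t q : ℤ) :
    (p : ℤ) ∣ F1 r s t q ↔ DC_Sf p r s t q := by
  rw [LA_dvd]
  unfold F1 DC_Sf
  push_cast
  rfl

private theorem DC_hB (b σ : Bool) (y p : ℕ) (r s t q : ℤ) :
    BC b σ y p r s t q ↔ DC_B b σ y p r s t q := by
  unfold BC DC_B DC_Fb
  rw [DC_hW, LA_dvd]
  push_cast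
  rfl

theorem Per_BC (b σ : Bool) (y p : ℕ) : Per p (BC b σ y p) := by
  intro r s t q r' s' t' q' hr hs ht hq
  rw [DC_hB, DC_hB]
  rw [LA_dvd, Int.cast_sub, sub_eq_zero] at hr hs ht hq
  rw [hr, hs, ht, hq]

/-- the product of two nonsquares is a square -/
private theorem DC_mul (p : ℕ) [Fact p.Prime] (hp : p ≠ 2) {a c : ZMod p} (ha : ¬ IsSquare a)
    (hc : ¬ IsSquare c) : IsSquare (a * c) := by
  have hch : ringChar (ZMod p) ≠ 2 := by rwa [ZMod.ringChar_zmod_n]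
  have h1 := (quadraticChar_neg_one_iff_not_isSquare (F := ZMod p)).2 ha
  have h2 := (quadraticChar_neg_one_iff_not_isSquare (F := ZMod p)).2 hc
  have h3 : quadraticChar (ZMod p) (a * c) = 1 := by rw [map_mul, h1, h2]; norm_num
  have h4 : a * c ≠ 0 := by
    intro h0
    rw [h0, quadraticChar_zero] at h3
    exact zero_ne_one h3
  exact (quadraticChar_one_iff_isSquare h4).1 h3

private theorem DC_ns0 {p : ℕ} {a : ZMod p} (h : ¬ IsSquare a) : a ≠ 0 := by
  rintro rfl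
  exact h IsSquare.zero

open Classical in
private theorem DC_cnt (p : ℕ) [Fact p.Prime] (h5 : 5 ≤ p) (σ : Bool) :
    (p - 1) * (p - 1) ≤ 2 * (univ.filter (fun z : ZMod p × ZMod p =>
      z.1 ^ 2 + z.1 * z.2 + z.2 ^ 2 ≠ 0 ∧ ¬ Sg σ p (z.1 ^ 2 + z.1 * z.2 + z.2 ^ 2))).card := by
  have h0 := cnt_eis p h5
  by_cases hs : σ = true ∨ p % 4 = 1
  · refine h0.trans (Nat.mul_le_mul_left 2 (card_le_card ?_))
    intro z hz
    have hz' := (mem_filter.1 hz).2
    refine mem_filter.2 ⟨mem_univ _, DC_ns0 hz', ?_⟩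
    unfold Sg
    rw [if_pos hs]
    exact hz'
  · -- an element with nonsquare norm
    obtain ⟨⟨a, c⟩, hac⟩ : (univ.filter (fun z : ZMod p × ZMod p =>
        ¬ IsSquare (z.1 ^ 2 + z.1 * z.2 + z.2 ^ 2))).Nonempty := by
      rw [← card_pos]
      have h1 : 0 < (p - 1) * (p - 1) := Nat.mul_pos (by omega) (by omega)
      omega
    have hn : ¬ IsSquare (a ^ 2 + a * c + c ^ 2) := (mem_filter.1 hac).2
    have hn0 := DC_ns0 hn
    refine h0.trans (Nat.mul_le_mul_left 2 ?_)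
    apply card_le_card_of_injOn (fun z : ZMod p × ZMod p =>
      (z.1 * a - z.2 * c, z.1 * c + z.2 * a + z.2 * c))
    · rintro ⟨r, s⟩ hz
      have hz' : ¬ IsSquare (r ^ 2 + r * s + s ^ 2) := (mem_filter.1 hz).2
      have e : (r * a - s * c) ^ 2 + (r * a - s * c) * (r * c + s * a + s * c) +
          (r * c + s * a + s * c) ^ 2 = (r ^ 2 + r * s + s ^ 2) * (a ^ 2 + a * c + c ^ 2) := by ring
      refine mem_filter.2 ⟨mem_univ _, ?_, ?_⟩
      · simp only
        rw [e]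
        exact mul_ne_zero (DC_ns0 hz') hn0
      · simp only
        rw [e]
        unfold Sg
        rw [if_neg hs, not_not]
        exact DC_mul p (by omega) hz' hn
    · rintro ⟨r, s⟩ _ ⟨r', s'⟩ _ h
      simp only [Prod.mk.injEq] at h
      obtain ⟨e1, e2⟩ := h
      have hr : r = r' := by
        apply mul_right_cancel₀ hn0
        linear_combination (a + c) * e1 + c * e2
      have hs' : s = s' := by
        apply mul_right_cancel₀ hn0
        linear_combination a * e2 - c * e1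
      rw [hr, hs']

private theorem DC_Fb_lower (p : ℕ) [Fact p.Prime] (h5 : 5 ≤ p) (σ : Bool) :
    (p - 1) * (p - 1) ≤ 2 * (LB_set p (DC_Fb σ p)).card := by
  classical
  refine (DC_cnt p h5 σ).trans (Nat.mul_le_mul_left 2 ?_)
  apply card_le_card_of_injOn (fun z : ZMod p × ZMod p =>
    (z.1, z.2, -z.2 / (z.1 ^ 2 + z.1 * z.2 + z.2 ^ 2),
      (z.1 + z.2) / (z.1 ^ 2 + z.1 * z.2 + z.2 ^ 2)))
  · rintro ⟨r, s⟩ hz
    obtain ⟨hu, hz'⟩ : r ^ 2 + r * s + s ^ 2 ≠ 0 ∧ ¬ Sg σ p (r ^ 2 + r * s + s ^ 2) :=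
      (mem_filter.1 hz).2
    refine (LB_mem_set p _ _).2 ⟨?_, ?_, hz'⟩
    · show r * ((r + s) / (r ^ 2 + r * s + s ^ 2)) - s * (-s / (r ^ 2 + r * s + s ^ 2)) = 1
      have e : r * ((r + s) / (r ^ 2 + r * s + s ^ 2)) - s * (-s / (r ^ 2 + r * s + s ^ 2)) =
          (r ^ 2 + r * s + s ^ 2) / (r ^ 2 + r * s + s ^ 2) := by ring
      rw [e, div_self hu]
    · show r * (-s / (r ^ 2 + r * s + s ^ 2)) + s * (-s / (r ^ 2 + r * s + s ^ 2)) +
        s * ((r + s) / (r ^ 2 + r * s + s ^ 2)) = 0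
      ring
  · rintro ⟨r, s⟩ _ ⟨r', s'⟩ _ h
    simp only [Prod.mk.injEq] at h
    rw [h.1, h.2.1]

private theorem DC_id {p : ℕ} (r s t q : ZMod p) (h1 : r * q - s * t = 1)
    (h3 : r * t + s * t + s * q = 0) :
    (r ^ 2 + r * s + s ^ 2) * (t ^ 2 + t * q + q ^ 2) = 1 := by
  have e : (r ^ 2 + r * s + s ^ 2) * (t ^ 2 + t * q + q ^ 2) =
      (r * t + s * t + s * q) ^ 2 + (r * t + s * t + s * q) * (r * q - s * t) +
        (r * q - s * t) ^ 2 := by ring
  rw [e, h1, h3]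
  ring

private theorem DC_Fb_upper (p : ℕ) [Fact p.Prime] (σ : Bool) :
    (LB_set p (DC_Fb σ p)).card ≤ p * p := by
  classical
  have h1 : (LB_set p (DC_Fb σ p)).card ≤ (univ : Finset (ZMod p × ZMod p)).card := by
    apply card_le_card_of_injOn (fun x => (x.1, x.2.1))
    · intro x _
      exact mem_coe.2 (mem_univ _)
    · rintro ⟨r, s, t, q⟩ hx ⟨r', s', t', q'⟩ hx' h
      obtain ⟨h1, h2, h3⟩ := (LB_mem_set p _ _).1 hx
      obtain ⟨h1', h2', _⟩ := (LB_mem_set p _ _).1 hx'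
      simp only at h1 h2 h3 h1' h2'
      simp only [Prod.mk.injEq] at h
      obtain ⟨e1, e2⟩ := h
      subst e1 e2
      have hu : r ^ 2 + r * s + s ^ 2 ≠ 0 := by
        intro h0
        have := DC_id r s t q h1 h2
        rw [h0, zero_mul] at this
        exact zero_ne_one this
      have et : t = t' := by
        apply mul_left_cancel₀ hu
        linear_combination r * h2 - s * h1 - r * h2' + s * h1'
      have eq : q = q' := by
        apply mul_left_cancel₀ hu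
        linear_combination (r + s) * h1 + s * h2 - (r + s) * h1' - s * h2'
      rw [et, eq]
  rw [card_univ, Fintype.card_prod, ZMod.card] at h1
  exact h1

private theorem DC_disj (b σ : Bool) (p : ℕ) [Fact p.Prime] :
    Disjoint (LB_set p (DC_W b p)) (LB_set p (DC_Fb σ p)) := by
  rw [disjoint_left]
  rintro ⟨r, s, t, q⟩ hx hx'
  obtain ⟨h1, h2⟩ := (LB_mem_set p _ _).1 hx
  obtain ⟨_, h3, _⟩ := (LB_mem_set p _ _).1 hx'
  unfold DC_W at h2
  simp only at h1 h2 h3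
  have e := DC_id r s t q h1 h3
  cases b
  · rw [cond_false] at h2
    rw [h2, mul_zero] at e
    exact zero_ne_one e
  · rw [cond_true] at h2
    rw [h2, zero_mul] at e
    exact zero_ne_one e

private theorem DC_swap (p : ℕ) [Fact p.Prime] (b : Bool) :
    (LB_set p (DC_W b p)).card ≤ (LB_set p (DC_W (!b) p)).card := by
  classical
  apply card_le_card_of_injOn (fun x : ZMod p × ZMod p × ZMod p × ZMod p =>
    (x.2.2.1, x.2.2.2, -x.1, -x.2.1))
  · rintro ⟨r, s, t, q⟩ hx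
    obtain ⟨h1, h2⟩ := (LB_mem_set p _ _).1 hx
    unfold DC_W at h2
    simp only at h1 h2
    refine (LB_mem_set p _ _).2 ⟨?_, ?_⟩
    · show t * -s - q * -r = 1
      linear_combination h1
    · unfold DC_W
      simp only
      cases b
      · rw [cond_false] at h2
        simpa using h2
      · rw [cond_true] at h2
        simp only [Bool.not_true, cond_false]
        linear_combination h2
  · rintro ⟨r, s, t, q⟩ _ ⟨r', s', t', q'⟩ _ h
    simp only [Prod.mk.injEq, neg_inj] at h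
    obtain ⟨h1, h2, h3, h4⟩ := h
    rw [h1, h2, h3, h4]

private theorem DC_half (p : ℕ) [Fact p.Prime] (b : Bool) :
    (LB_set p (DC_Sf p)).card ≤ 2 * (LB_set p (DC_W b p)).card := by
  classical
  have h1 : LB_set p (DC_Sf p) ⊆ LB_set p (DC_W b p) ∪ LB_set p (DC_W (!b) p) := by
    intro x hx
    obtain ⟨h1, h2⟩ := (LB_mem_set p _ _).1 hx
    rw [mem_union]
    have h3 : DC_W b p x.1 x.2.1 x.2.2.1 x.2.2.2 ∨ DC_W (!b) p x.1 x.2.1 x.2.2.1 x.2.2.2 := by
      unfold DC_W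
      unfold DC_Sf at h2
      rcases mul_eq_zero.1 h2 with h | h
      · cases b
        · right; simpa using h
        · left; simpa using h
      · cases b
        · left; simpa using h
        · right; simpa using h
    rcases h3 with h3 | h3
    · exact Or.inl ((LB_mem_set p _ _).2 ⟨h1, h3⟩)
    · exact Or.inr ((LB_mem_set p _ _).2 ⟨h1, h3⟩)
  have h2 := (card_le_card h1).trans (card_union_le _ _)
  have h3 := DC_swap p (!b)
  rw [Bool.not_not] at h3
  omega

theorem slcC_lower (b σ : Bool) (y p : ℕ) (hp : p.Prime) :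
    slc p (fun r s t q => (p : ℤ) ∣ F1 r s t q) ≤ 2 * slc p (BC b σ y p) := by
  classical
  have : Fact p.Prime := ⟨hp⟩
  rw [LB_transfer p _ (DC_Sf p) (DC_hS p), LB_transfer p _ (DC_B b σ y p) (DC_hB b σ y p)]
  refine (DC_half p b).trans (Nat.mul_le_mul_left 2 (card_le_card ?_))
  intro x hx
  obtain ⟨a, c⟩ := (LB_mem_set p _ _).1 hx
  exact (LB_mem_set p _ _).2 ⟨a, Or.inl c⟩

theorem slcC_lower4 (b σ : Bool) (y p : ℕ) (hp : p.Prime) (h5 : 5 ≤ p) (hy : y ≤ p) :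
    slc p (fun r s t q => (p : ℤ) ∣ F1 r s t q) + (p - 1) * (p - 1) ≤ 2 * slc p (BC b σ y p) := by
  classical
  have : Fact p.Prime := ⟨hp⟩
  rw [LB_transfer p _ (DC_Sf p) (DC_hS p), LB_transfer p _ (DC_B b σ y p) (DC_hB b σ y p)]
  have h1 := DC_Fb_lower p h5 σ
  have h3 := DC_half p b
  have h2 : (LB_set p (DC_W b p)).card + (LB_set p (DC_Fb σ p)).card ≤
      (LB_set p (DC_B b σ y p)).card := by
    rw [← card_union_of_disjoint (DC_disj b σ p)]
    apply card_le_card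
    intro x hx
    rw [mem_union] at hx
    rw [LB_mem_set]
    rcases hx with hx | hx
    · obtain ⟨a, c⟩ := (LB_mem_set p _ _).1 hx
      exact ⟨a, Or.inl c⟩
    · obtain ⟨a, c⟩ := (LB_mem_set p _ _).1 hx
      exact ⟨a, Or.inr ⟨hy, c⟩⟩
  omega

theorem slcC_upper (b σ : Bool) (y p : ℕ) (hp : p.Prime) :
    slc p (BC b σ y p) ≤ slc p (fun r s t q => (p : ℤ) ∣ F1 r s t q) + p * p := by
  classical
  have : Fact p.Prime := ⟨hp⟩
  rw [LB_transfer p _ (DC_Sf p) (DC_hS p), LB_transfer p _ (DC_B b σ y p) (DC_hB b σ y p)]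
  have h1 := DC_Fb_upper p σ
  have h2 : (LB_set p (DC_B b σ y p)).card ≤ (LB_set p (DC_Sf p) ∪ LB_set p (DC_Fb σ p)).card := by
    apply card_le_card
    intro x hx
    obtain ⟨a, c⟩ := (LB_mem_set p _ _).1 hx
    rw [mem_union]
    rcases c with c | c
    · refine Or.inl ((LB_mem_set p _ _).2 ⟨a, ?_⟩)
      unfold DC_W at c
      unfold DC_Sf
      cases b
      · rw [cond_false] at c
        rw [c, mul_zero]
      · rw [cond_true] at c
        rw [c, zero_mul]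
    · exact Or.inr ((LB_mem_set p _ _).2 ⟨a, c.2⟩)
  have h3 := card_union_le (LB_set p (DC_Sf p)) (LB_set p (DC_Fb σ p))
  omega

private theorem DC_F1 (p : ℕ) (hp : p.Prime) (h5 : 5 ≤ p) :
    (slc p (fun r s t q => (p : ℤ) ∣ F1 r s t q) : ℝ) =
      (if p % 3 = 1 then rho p else 0) * ((p : ℝ) * ((p : ℝ) - 1) * ((p : ℝ) + 1)) := by
  have h0 : p % 3 ≠ 0 := by
    intro h
    have h1 : 3 ∣ p := Nat.dvd_of_mod_eq_zero h
    have := (Nat.prime_dvd_prime_iff_eq Nat.prime_three hp).1 h1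
    omega
  have hP : (5 : ℝ) ≤ p := by exact_mod_cast h5
  by_cases h3 : p % 3 = 1
  · rw [if_pos h3, ← dn_F1 p hp h3]
    unfold dn
    rw [LB_cast_top p hp, div_mul_cancel₀]
    have h1 : (0 : ℝ) < p := by linarith
    have h2 : (0 : ℝ) < (p : ℝ) - 1 := by linarith
    positivity
  · rw [if_neg h3, slc_F1_zero p hp (by omega) h5]
    simp

theorem dnC_lower (b σ : Bool) (y p : ℕ) (hp : p.Prime) (h5 : 5 ≤ p) :
    (1 / 2) * (if p % 3 = 1 then rho p else 0) +
      (if y ≤ p then (1 / 2) * ((1 : ℝ) / p) - ((1 : ℝ) / p - 1 / (p + 1)) else 0) ≤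
      dn p (BC b σ y p) := by
  have hP : (5 : ℝ) ≤ p := by exact_mod_cast h5
  have h1 : (0 : ℝ) < p := by linarith
  have h2 : (0 : ℝ) < (p : ℝ) - 1 := by linarith
  have hT : 0 < (p : ℝ) * ((p : ℝ) - 1) * ((p : ℝ) + 1) := by positivity
  have hF := DC_F1 p hp h5
  unfold dn
  rw [LB_cast_top p hp, le_div_iff₀ hT, add_mul, mul_assoc, ← hF]
  by_cases h4 : y ≤ p
  · rw [if_pos h4]
    have h6 := slcC_lower4 b σ y p hp h5 h4
    have h7 : (slc p (fun r s t q => (p : ℤ) ∣ F1 r s t q) : ℝ) +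
        ((p : ℝ) - 1) * ((p : ℝ) - 1) ≤ 2 * (slc p (BC b σ y p) : ℝ) := by
      have h8 : ((p - 1 : ℕ) : ℝ) = (p : ℝ) - 1 := by
        rw [Nat.cast_sub hp.one_le, Nat.cast_one]
      rw [← h8]
      exact_mod_cast h6
    have h9 : ((1 / 2) * ((1 : ℝ) / p) - ((1 : ℝ) / p - 1 / (p + 1))) *
        ((p : ℝ) * ((p : ℝ) - 1) * ((p : ℝ) + 1)) = ((p : ℝ) - 1) * ((p : ℝ) - 1) / 2 := by
      field_simp
      ring
    rw [h9]
    linarith
  · rw [if_neg h4, zero_mul, add_zero]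
    have h6 : (slc p (fun r s t q => (p : ℤ) ∣ F1 r s t q) : ℝ) ≤ 2 * (slc p (BC b σ y p) : ℝ) := by
      exact_mod_cast slcC_lower b σ y p hp
    linarith

theorem dnC_bd (b σ : Bool) (y p : ℕ) (hp : p.Prime) (h5 : 5 ≤ p)
    (h : p % 3 = 1 ∨ y ≤ p) :
    0 < dn p (BC b σ y p) ∧ dn p (BC b σ y p) < 1 ∧ dn p (BC b σ y p) * p ≤ 6 := by
  have hP : (5 : ℝ) ≤ p := by exact_mod_cast h5
  have h1 : (0 : ℝ) < p := by linarith
  have h2 : (0 : ℝ) < (p : ℝ) - 1 := by linarith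
  have hT : 0 < (p : ℝ) * ((p : ℝ) - 1) * ((p : ℝ) + 1) := by positivity
  have hrho := rho_bd p h5
  have hl := dnC_lower b σ y p hp h5
  have hx : 0 < (1 / 2) * ((1 : ℝ) / p) - ((1 : ℝ) / p - 1 / (p + 1)) := by
    have e : (1 / 2) * ((1 : ℝ) / p) - ((1 : ℝ) / p - 1 / (p + 1)) =
        ((p : ℝ) - 1) / (2 * p * (p + 1)) := by
      field_simp
      ring
    rw [e]
    positivity
  -- the upper bound
  have hF := DC_F1 p hp h5
  have hF2 : (slc p (fun r s t q => (p : ℤ) ∣ F1 r s t q) : ℝ) ≤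
      2 * ((p : ℝ) - 1) * (2 * (p : ℝ) - 1) := by
    rw [hF]
    by_cases h3 : p % 3 = 1
    · rw [if_pos h3]
      apply le_of_eq
      unfold rho
      field_simp
    · rw [if_neg h3, zero_mul]
      have : (0 : ℝ) < 2 * (p : ℝ) - 1 := by linarith
      positivity
  have hU : (slc p (BC b σ y p) : ℝ) ≤ 2 * ((p : ℝ) - 1) * (2 * (p : ℝ) - 1) + p * p := by
    have h6 := slcC_upper b σ y p hp
    have h7 : (slc p (BC b σ y p) : ℝ) ≤
        (slc p (fun r s t q => (p : ℤ) ∣ F1 r s t q) : ℝ) + p * p := by exact_mod_cast h6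
    linarith
  refine ⟨?_, ?_, ?_⟩
  · refine lt_of_lt_of_le ?_ hl
    by_cases h3 : p % 3 = 1
    · rw [if_pos h3]
      split_ifs
      · linarith [hrho.1]
      · linarith [hrho.1]
    · rw [if_neg h3, if_pos (h.resolve_left h3)]
      linarith
  · unfold dn
    rw [LB_cast_top p hp, div_lt_one hT]
    refine lt_of_le_of_lt hU ?_
    nlinarith [mul_nonneg (sub_nonneg.2 hP) (mul_pos h1 h1).le]
  · unfold dn
    rw [LB_cast_top p hp, div_mul_eq_mul_div, div_le_iff₀ hT]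
    have h8 : (slc p (BC b σ y p) : ℝ) * p ≤
        (2 * ((p : ℝ) - 1) * (2 * (p : ℝ) - 1) + p * p) * p :=
      mul_le_mul_of_nonneg_right hU h1.le
    refine h8.trans ?_
    nlinarith [mul_nonneg (sub_nonneg.2 hP) h1.le, mul_pos h1 h1,
      mul_nonneg (mul_nonneg (sub_nonneg.2 hP) h1.le) h1.le]

end Pool.Agent.H80.FP
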