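import Pool.Agent.H80.FP.IU

/-!
FP DY: the sum of IU over the dyadic ranges `2^j < u ≤ 2^(j+1)`, `j ≥ j0`, with `z = 2^(j / T0)`: the terms are `≤ C x j^(-5/4)`.
-/

set_option autoImplicit false

namespace Pool.Agent.H80.FP

open Finset Pool.Agent.H37.PPC Pool.Agent.H37.PPD Pool.Agent.H37.PPE Pool.Agent.H49.PPR

/-- the conditions on `n` in the dyadic part -/
def Cd (y n u w : ℕ) (b : Bool) : Prop :=
  u * w = n ^ 2 + n + 1 ∧ u ≤ w ∧ (bif b then u else w).Prime ∧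
    ∀ p : ℕ, p.Prime → p % 4 = 1 → y ≤ p → p ∣ n → IsSquare (u : ZMod p)

private theorem DY_le {n u w : ℕ} (h : u * w = n ^ 2 + n + 1) (huw : u ≤ w) (h2 : 2 ≤ u) :
    u ≤ n := by
  by_contra hc
  push Not at hc
  have h1 : (n + 1) * (n + 1) ≤ u * w := Nat.mul_le_mul hc (Nat.lt_of_lt_of_le hc huw)
  have h3 : n = 0 := by nlinarith
  subst h3
  have h4 : 2 * 2 ≤ u * w := Nat.mul_le_mul h2 (h2.trans huw)
  omega

/-- one dyadic range -/
private theorem DY_one (y : ℕ) : ∃ T0 : ℕ, 1 ≤ T0 ∧ ∃ C : ℝ, 0 < C ∧ ∀ (b : Bool) (x j : ℕ), T0 ≤ j →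
    ∀ S : Finset ℕ, (∀ n ∈ S, n ≤ x ∧ ∃ u w : ℕ, Cd y n u w b ∧ 2 ^ j < u ∧ u ≤ 2 * 2 ^ j) →
    (S.card : ℝ) ≤ x * (C * (1 / (j : ℝ) ^ (5 / 4 : ℝ))) := by
  obtain ⟨T0, hT0, C, hC, h⟩ := IU y
  have hTr : (0 : ℝ) < T0 := by exact_mod_cast hT0
  refine ⟨T0, hT0, C * (4 * T0) ^ (5 / 4 : ℝ), by positivity, ?_⟩
  intro b x j hj S hS
  have hj1 : 1 ≤ j := hT0.trans hj
  have hjr : (0 : ℝ) < j := by exact_mod_cast hj1
  by_cases hU : 2 ^ j ≤ x
  · have hk1 : 1 ≤ j / T0 := (Nat.one_le_div_iff (by omega)).2 hj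
    obtain ⟨k, hk⟩ : ∃ k, k = j / T0 := ⟨_, rfl⟩
    rw [← hk] at hk1
    have hkj : k * T0 ≤ j := by rw [hk]; exact Nat.div_mul_le_self j T0
    have hkj2 : j ≤ 2 * (T0 * k) := by
      have h1 : j < T0 * k + T0 := by
        rw [hk]
        have := Nat.lt_mul_div_succ j (show 0 < T0 by omega)
        linarith
      have h2 : T0 ≤ T0 * k := Nat.le_mul_of_pos_right _ hk1
      omega
    have hz : 2 ≤ 2 ^ k := by
      calc 2 = 2 ^ 1 := by norm_num
        _ ≤ 2 ^ k := Nat.pow_le_pow_right (by norm_num) hk1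
    have hzU : (2 ^ k) ^ T0 ≤ 2 ^ j := by
      rw [← pow_mul]
      exact Nat.pow_le_pow_right (by norm_num) hkj
    have h1 := h b x (2 ^ j) (2 ^ k) hz hzU hU S ?_
    · have h2 : Real.exp (-((5 / 4) * ll (2 ^ k))) ≤
          (4 * T0) ^ (5 / 4 : ℝ) * (1 / (j : ℝ) ^ (5 / 4 : ℝ)) := by
        have hlog : Real.log ((2 ^ k : ℕ) : ℝ) = k * Real.log 2 := by
          push_cast
          rw [Real.log_pow]
        have hl2 := Real.log_two_gt_d9
        have hkr : (1 : ℝ) ≤ k := by exact_mod_cast hk1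
        have hpos : 0 < Real.log ((2 ^ k : ℕ) : ℝ) := by
          rw [hlog]
          have : (0 : ℝ) < Real.log 2 := by linarith
          positivity
        have e1 : Real.exp (-((5 / 4) * ll (2 ^ k))) =
            (Real.log ((2 ^ k : ℕ) : ℝ) ^ (5 / 4 : ℝ))⁻¹ := by
          unfold ll
          rw [Real.rpow_def_of_pos hpos, ← Real.exp_neg]
          congr 1
          ring
        have h3 : (j : ℝ) ≤ 4 * T0 * Real.log ((2 ^ k : ℕ) : ℝ) := by
          rw [hlog]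
          have h4 : (j : ℝ) ≤ 2 * (T0 * k) := by exact_mod_cast hkj2
          have h5 : (0 : ℝ) ≤ T0 * k := by positivity
          nlinarith
        rw [e1, ← one_div, mul_one_div, ← Real.div_rpow (by positivity) hjr.le]
        have h6 : (1 : ℝ) / Real.log ((2 ^ k : ℕ) : ℝ) ^ (5 / 4 : ℝ) =
            (1 / Real.log ((2 ^ k : ℕ) : ℝ)) ^ (5 / 4 : ℝ) := by
          rw [Real.div_rpow zero_le_one hpos.le, Real.one_rpow]
        rw [h6]
        apply Real.rpow_le_rpow (by positivity) _ (by norm_num)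
        rw [div_le_div_iff₀ hpos hjr]
        linarith
      have hx0 : (0 : ℝ) ≤ x := Nat.cast_nonneg x
      calc (S.card : ℝ) ≤ C * x * Real.exp (-((5 / 4) * ll (2 ^ k))) := h1
        _ ≤ C * x * ((4 * T0) ^ (5 / 4 : ℝ) * (1 / (j : ℝ) ^ (5 / 4 : ℝ))) :=
          mul_le_mul_of_nonneg_left h2 (by positivity)
        _ = _ := by ring
    · intro n hn
      obtain ⟨hnx, u, w, ⟨huw, huw', hpr, hsq⟩, h3, h4⟩ := hS n hn
      refine ⟨hnx, u, w, huw, h3, h4, ?_, ?_⟩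
      · intro p hp hdvd
        rw [mem_pr] at hp
        have h5 := (Nat.prime_dvd_prime_iff_eq hp.2 hpr).1 hdvd
        have h6 : 2 ^ k ≤ 2 ^ j := (Nat.le_self_pow (by omega) (2 ^ k)).trans hzU
        cases b
        · rw [cond_false] at h5
          omega
        · rw [cond_true] at h5
          omega
      · intro p hp h4' hy hpn
        exact hsq p (mem_pr.1 hp).2 h4' hy hpn
  · have he : S = ∅ := by
      rw [eq_empty_iff_forall_notMem]
      intro n hn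
      obtain ⟨hnx, u, w, ⟨huw, huw', -⟩, h3, -⟩ := hS n hn
      have h2j : 1 ≤ 2 ^ j := Nat.one_le_two_pow
      have := DY_le huw huw' (by omega)
      omega
    rw [he, card_empty, Nat.cast_zero]
    positivity

theorem DY (y : ℕ) (ε : ℝ) (hε : 0 < ε) : ∃ j0 : ℕ, ∀ (x : ℕ) (S : Finset ℕ),
    (∀ n ∈ S, n ≤ x ∧ ∃ (b : Bool) (u w : ℕ), Cd y n u w b ∧ 2 ^ j0 < u) →
    (S.card : ℝ) ≤ ε * x := by
  classical
  obtain ⟨T0, hT0, C, hC, h⟩ := DY_one y
  have hsum : Summable fun j : ℕ => C * (1 / (j : ℝ) ^ (5 / 4 : ℝ)) :=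
    (Real.summable_one_div_nat_rpow.2 (by norm_num)).mul_left C
  obtain ⟨s, hs⟩ := summable_iff_vanishing_norm.1 hsum (ε / 2) (by positivity)
  obtain ⟨j1, hj1⟩ : ∃ j1 : ℕ, ∀ i ∈ s, i < j1 := ⟨s.sup id + 1, fun i hi =>
    Nat.lt_succ_of_le (Finset.le_sup (f := id) hi)⟩
  refine ⟨max T0 j1, fun x S hS => ?_⟩
  obtain ⟨j0, hj0⟩ : ∃ j0, j0 = max T0 j1 := ⟨_, rfl⟩
  rw [← hj0] at hS
  have hT : T0 ≤ j0 := by rw [hj0]; exact le_max_left _ _
  have hj : j1 ≤ j0 := by rw [hj0]; exact le_max_right _ _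
  obtain ⟨Sj, hSj⟩ : ∃ Sj : Bool → ℕ → Finset ℕ, ∀ b j, Sj b j = S.filter fun n => ∃ u w : ℕ,
    Cd y n u w b ∧ 2 ^ j < u ∧ u ≤ 2 * 2 ^ j := ⟨_, fun _ _ => rfl⟩
  have h1 : S ⊆ (Ico j0 (j0 + x)).biUnion (Sj true) ∪ (Ico j0 (j0 + x)).biUnion (Sj false) := by
    intro n hn
    obtain ⟨hnx, b, u, w, hcd, hu⟩ := hS n hn
    have h2u : 1 ≤ 2 ^ j0 := Nat.one_le_two_pow
    have hun := DY_le hcd.1 hcd.2.1 (by omega)
    have hu1 : u - 1 ≠ 0 := by omega
    obtain ⟨j, hjd⟩ : ∃ j, j = Nat.log 2 (u - 1) := ⟨_, rfl⟩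
    have h3 : 2 ^ j ≤ u - 1 := by rw [hjd]; exact Nat.pow_log_le_self 2 hu1
    have h4 : u - 1 < 2 ^ (j + 1) := by rw [hjd]; exact Nat.lt_pow_succ_log_self (by norm_num) _
    have h5 : j0 ≤ j := by
      rw [hjd]
      exact Nat.le_log_of_pow_le (by norm_num) (by omega)
    have h6 : j < j0 + x := by
      have h7 : 2 ^ j < 2 ^ x := by
        have := Nat.lt_two_pow_self (n := x)
        omega
      have := (Nat.pow_lt_pow_iff_right (show 1 < 2 by norm_num)).1 h7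
      omega
    have h8 : n ∈ Sj b j := by
      rw [hSj, mem_filter]
      exact ⟨hn, u, w, hcd, by omega, by rw [pow_succ] at h4; omega⟩
    rw [mem_union, mem_biUnion, mem_biUnion]
    cases b
    · exact Or.inr ⟨j, mem_Ico.2 ⟨h5, h6⟩, h8⟩
    · exact Or.inl ⟨j, mem_Ico.2 ⟨h5, h6⟩, h8⟩
  have h2 : ∀ b, ∀ j ∈ Ico j0 (j0 + x), ((Sj b j).card : ℝ) ≤
      x * (C * (1 / (j : ℝ) ^ (5 / 4 : ℝ))) := by
    intro b j hjm
    refine h b x j (hT.trans (mem_Ico.1 hjm).1) _ ?_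
    intro n hn
    rw [hSj, mem_filter] at hn
    exact ⟨(hS n hn.1).1, hn.2⟩
  have h3 : ∑ j ∈ Ico j0 (j0 + x), C * (1 / (j : ℝ) ^ (5 / 4 : ℝ)) ≤ ε / 2 := by
    have h4 := hs (Ico j0 (j0 + x)) (by
      rw [disjoint_left]
      intro i hi hi'
      have := hj1 i hi'
      have := (mem_Ico.1 hi).1
      omega)
    exact (le_abs_self _).trans h4.le
  have h4 : ∀ b, (((Ico j0 (j0 + x)).biUnion (Sj b)).card : ℝ) ≤ x * (ε / 2) := by
    intro b
    have h5 : (((Ico j0 (j0 + x)).biUnion (Sj b)).card : ℝ) ≤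
        ∑ j ∈ Ico j0 (j0 + x), ((Sj b j).card : ℝ) := by
      exact_mod_cast card_biUnion_le
    refine h5.trans ((sum_le_sum (h2 b)).trans ?_)
    rw [← mul_sum]
    exact mul_le_mul_of_nonneg_left h3 (Nat.cast_nonneg x)
  have h5 : (S.card : ℝ) ≤ (((Ico j0 (j0 + x)).biUnion (Sj true)).card : ℝ) +
      (((Ico j0 (j0 + x)).biUnion (Sj false)).card : ℝ) := by
    exact_mod_cast (card_le_card h1).trans (card_union_le _ _)
  have h6 := h4 true
  have h7 := h4 false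
  linarith

end Pool.Agent.H80.FP
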