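import Pool.Agent.H80.FP.IV

/-!
FP DZ (rate version of DY): the sum of IV over the dyadic ranges `2^j < u ≤ 2^(j+1)`, `j ≥ J`, with `z = 2^(j / T0)`: the terms are
`≤ C (log max(5,y))^(1/2) x j^(-3/2)`, the sum `≤ C (log max(5,y))^(1/2) x J^(-1/2)`.
-/

set_option autoImplicit false

namespace Pool.Agent.H80.FP

open Finset Pool.Agent.H37.PPC Pool.Agent.H37.PPD Pool.Agent.H37.PPE Pool.Agent.H49.PPR

/-- the conditions on `n` in the dyadic part -/
def Ce (y n u w : ℕ) (b σ : Bool) : Prop :=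
  u * w = n ^ 2 + n + 1 ∧ u ≤ w ∧ (bif b then u else w).Prime ∧
    ∀ p : ℕ, p.Prime → 5 ≤ p → y ≤ p → p ∣ n → Sg σ p (u : ZMod p)

private theorem DZ_le {n u w : ℕ} (h : u * w = n ^ 2 + n + 1) (huw : u ≤ w) (h2 : 2 ≤ u) :
    u ≤ n := by
  by_contra hc
  push Not at hc
  have h1 : (n + 1) * (n + 1) ≤ u * w := Nat.mul_le_mul hc (Nat.lt_of_lt_of_le hc huw)
  have h3 : n = 0 := by nlinarith
  subst h3
  have h4 : 2 * 2 ≤ u * w := Nat.mul_le_mul h2 (h2.trans huw)
  omega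

/-- one dyadic range -/
private theorem DZ_one : ∃ T0 : ℕ, 1 ≤ T0 ∧ ∃ C : ℝ, 0 < C ∧ ∀ (b σ : Bool) (y x j : ℕ), T0 ≤ j →
    ∀ S : Finset ℕ, (∀ n ∈ S, n ≤ x ∧ ∃ u w : ℕ, Ce y n u w b σ ∧ 2 ^ j < u ∧ u ≤ 2 * 2 ^ j) →
    (S.card : ℝ) ≤ C * Real.exp ((1 / 2) * ll (max 5 y)) * x * (1 / (j : ℝ) ^ (3 / 2 : ℝ)) := by
  obtain ⟨T0, hT0, C, hC, h⟩ := IV
  have hTr : (0 : ℝ) < T0 := by exact_mod_cast hT0
  refine ⟨T0, hT0, C * (4 * T0) ^ (3 / 2 : ℝ), by positivity, ?_⟩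
  intro b σ y x j hj S hS
  have hj1 : 1 ≤ j := hT0.trans hj
  have hjr : (0 : ℝ) < j := by exact_mod_cast hj1
  by_cases hU : 2 ^ j ≤ x
  · have hk1 : 1 ≤ j / T0 := (Nat.one_le_div_iff (by omega)).2 hj
    obtain ⟨k, hk⟩ : ∃ k, k = j / T0 := ⟨_, rfl⟩
    rw [← hk] at hk1
    have hkj : k * T0 ≤ j := by rw [hk]; exact Nat.div_mul_le_self j T0
    have hkj2 : j ≤ 2 * (T0 * k) := by
      have h1 : j < T0 * k + T0 := by
        rw [hk]
        have := Nat.lt_mul_div_succ j (show 0 < T0 by omega)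
        linarith
      have h2 : T0 ≤ T0 * k := Nat.le_mul_of_pos_right _ hk1
      omega
    have hz : 2 ≤ 2 ^ k := by
      calc 2 = 2 ^ 1 := by norm_num
        _ ≤ 2 ^ k := Nat.pow_le_pow_right (by norm_num) hk1
    have hzU : (2 ^ k) ^ T0 ≤ 2 ^ j := by
      rw [← pow_mul]
      exact Nat.pow_le_pow_right (by norm_num) hkj
    have h1 := h b σ y x (2 ^ j) (2 ^ k) hz hzU hU S ?_
    · have h2 : Real.exp (-((3 / 2) * ll (2 ^ k))) ≤
          (4 * T0) ^ (3 / 2 : ℝ) * (1 / (j : ℝ) ^ (3 / 2 : ℝ)) := by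
        have hlog : Real.log ((2 ^ k : ℕ) : ℝ) = k * Real.log 2 := by
          push_cast
          rw [Real.log_pow]
        have hl2 := Real.log_two_gt_d9
        have hkr : (1 : ℝ) ≤ k := by exact_mod_cast hk1
        have hpos : 0 < Real.log ((2 ^ k : ℕ) : ℝ) := by
          rw [hlog]
          have : (0 : ℝ) < Real.log 2 := by linarith
          positivity
        have e1 : Real.exp (-((3 / 2) * ll (2 ^ k))) =
            (Real.log ((2 ^ k : ℕ) : ℝ) ^ (3 / 2 : ℝ))⁻¹ := by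
          unfold ll
          rw [Real.rpow_def_of_pos hpos, ← Real.exp_neg]
          congr 1
          ring
        have h3 : (j : ℝ) ≤ 4 * T0 * Real.log ((2 ^ k : ℕ) : ℝ) := by
          rw [hlog]
          have h4 : (j : ℝ) ≤ 2 * (T0 * k) := by exact_mod_cast hkj2
          have h5 : (0 : ℝ) ≤ T0 * k := by positivity
          nlinarith
        rw [e1, ← one_div, mul_one_div, ← Real.div_rpow (by positivity) hjr.le]
        have h6 : (1 : ℝ) / Real.log ((2 ^ k : ℕ) : ℝ) ^ (3 / 2 : ℝ) =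
            (1 / Real.log ((2 ^ k : ℕ) : ℝ)) ^ (3 / 2 : ℝ) := by
          rw [Real.div_rpow zero_le_one hpos.le, Real.one_rpow]
        rw [h6]
        apply Real.rpow_le_rpow (by positivity) _ (by norm_num)
        rw [div_le_div_iff₀ hpos hjr]
        linarith
      have hx0 : (0 : ℝ) ≤ x := Nat.cast_nonneg x
      obtain ⟨M, hM⟩ : ∃ M, M = Real.exp ((1 / 2) * ll (max 5 y)) := ⟨_, rfl⟩
      have hM0 : 0 < M := by rw [hM]; exact Real.exp_pos _
      rw [← hM] at h1 ⊢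
      calc (S.card : ℝ) ≤ C * M * x * Real.exp (-((3 / 2) * ll (2 ^ k))) := h1
        _ ≤ C * M * x * ((4 * T0) ^ (3 / 2 : ℝ) * (1 / (j : ℝ) ^ (3 / 2 : ℝ))) :=
          mul_le_mul_of_nonneg_left h2 (by positivity)
        _ = _ := by ring
    · intro n hn
      obtain ⟨hnx, u, w, ⟨huw, huw', hpr, hsq⟩, h3, h4⟩ := hS n hn
      refine ⟨hnx, u, w, huw, h3, h4, ?_, ?_⟩
      · intro p hp hdvd
        rw [mem_pr] at hp
        have h5 := (Nat.prime_dvd_prime_iff_eq hp.2 hpr).1 hdvd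
        have h6 : 2 ^ k ≤ 2 ^ j := (Nat.le_self_pow (by omega) (2 ^ k)).trans hzU
        cases b
        · rw [cond_false] at h5
          omega
        · rw [cond_true] at h5
          omega
      · intro p hp hy hpn
        exact hsq p (mem_pr.1 hp).2 (mem_pr.1 hp).1.1 hy hpn
  · have he : S = ∅ := by
      rw [eq_empty_iff_forall_notMem]
      intro n hn
      obtain ⟨hnx, u, w, ⟨huw, huw', -⟩, h3, -⟩ := hS n hn
      have h2j : 1 ≤ 2 ^ j := Nat.one_le_two_pow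
      have := DZ_le huw huw' (by omega)
      omega
    rw [he, card_empty, Nat.cast_zero]
    positivity

/-- the tail of `∑ j^(-3/2)` -/
private theorem DZ_tail (J : ℕ) (hJ : 1 ≤ J) (k : ℕ) :
    ∑ j ∈ Ico J (J + k), 1 / (j : ℝ) ^ (3 / 2 : ℝ) ≤ 4 / Real.sqrt J - 4 / Real.sqrt ((J + k : ℕ) : ℝ) := by
  induction k with
  | zero => simp
  | succ k ih =>
    rw [← add_assoc, sum_Ico_succ_top (by omega)]
    obtain ⟨m, hm⟩ : ∃ m, m = J + k := ⟨_, rfl⟩
    rw [← hm] at ih ⊢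
    have hm1 : 1 ≤ m := by omega
    have hmr : (1 : ℝ) ≤ m := by exact_mod_cast hm1
    have hm0 : (0 : ℝ) < m := by linarith
    obtain ⟨a, ha⟩ : ∃ a, a = Real.sqrt m := ⟨_, rfl⟩
    obtain ⟨c, hc⟩ : ∃ c, c = Real.sqrt ((m + 1 : ℕ) : ℝ) := ⟨_, rfl⟩
    have ha1 : 1 ≤ a := by
      rw [ha, Real.one_le_sqrt]
      exact hmr
    have ha2 : a ^ 2 = m := by rw [ha]; exact Real.sq_sqrt hm0.le
    have hc2 : c ^ 2 = m + 1 := by
      rw [hc, Real.sq_sqrt (by positivity)]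
      push_cast
      ring
    have hac : a ≤ c := by
      rw [ha, hc]
      exact Real.sqrt_le_sqrt (by push_cast; linarith)
    have e1 : (m : ℝ) ^ (3 / 2 : ℝ) = a ^ 3 := by
      rw [ha, Real.sqrt_eq_rpow, ← Real.rpow_natCast, ← Real.rpow_mul hm0.le]
      norm_num
    rw [e1, ← hc]
    rw [← ha] at ih
    have key : 1 / a ^ 3 ≤ 4 / a - 4 / c := by
      have ha0 : 0 < a := by linarith
      have hc0 : 0 < c := by linarith
      have h1 : (c - a) * (c + a) = 1 := by nlinarith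
      have e2 : 4 / a - 4 / c = 4 * (c - a) / (a * c) := by field_simp
      rw [e2, div_le_div_iff₀ (by positivity) (by positivity)]
      -- a c ≤ 4 (c - a) a³
      have h2 : c + a ≤ 2 * c := by linarith
      have h3 : c ^ 2 ≤ 2 * a ^ 2 := by nlinarith
      have h4 : 1 ≤ (c - a) * (2 * c) := by
        have : 0 ≤ c - a := by linarith
        nlinarith
      have h5 : a * c * c ≤ 4 * (c - a) * a ^ 3 * c := by
        calc a * c * c = a * c ^ 2 * 1 := by ring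
          _ ≤ a * (2 * a ^ 2) * ((c - a) * (2 * c)) := by
            apply mul_le_mul (mul_le_mul_of_nonneg_left h3 ha0.le) h4 zero_le_one (by positivity)
          _ = 4 * (c - a) * a ^ 3 * c := by ring
      have h6 : a * c ≤ 4 * (c - a) * a ^ 3 := le_of_mul_le_mul_right h5 hc0
      linarith
    linarith

theorem DZ : ∃ C : ℝ, 0 < C ∧ ∀ (y x J : ℕ), 1 ≤ J → ∀ S : Finset ℕ,
    (∀ n ∈ S, n ≤ x ∧ ∃ (b σ : Bool) (u w : ℕ), Ce y n u w b σ ∧ 2 ^ J < u) →
    (S.card : ℝ) ≤ C * Real.exp ((1 / 2) * ll (max 5 y)) * x * (1 / Real.sqrt J) := by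
  classical
  obtain ⟨T0, hT0, C, hC, h⟩ := DZ_one
  have hTr : (1 : ℝ) ≤ T0 := by exact_mod_cast hT0
  refine ⟨16 * C + Real.sqrt T0, by positivity, fun y x J hJ S hS => ?_⟩
  obtain ⟨M, hM⟩ : ∃ M, M = Real.exp ((1 / 2) * ll (max 5 y)) := ⟨_, rfl⟩
  have hM1 : 1 ≤ M := by
    rw [hM]
    apply Real.one_le_exp
    have := ll5_nonneg y
    positivity
  rw [← hM]
  have hJr : (1 : ℝ) ≤ J := by exact_mod_cast hJ
  have hsJ : 0 < Real.sqrt J := Real.sqrt_pos.2 (by linarith)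
  have hx0 : (0 : ℝ) ≤ x := Nat.cast_nonneg x
  rcases Nat.lt_or_ge J T0 with hJT | hJT
  · -- trivial bound
    have h1 : S ⊆ Icc 1 x := by
      intro n hn
      obtain ⟨hnx, b, σ, u, w, hcd, hu⟩ := hS n hn
      have h2 : 1 ≤ 2 ^ J := Nat.one_le_two_pow
      have h3 := DZ_le hcd.1 hcd.2.1 (by omega)
      exact mem_Icc.2 ⟨by omega, hnx⟩
    have h2 : (S.card : ℝ) ≤ x := by
      have := card_le_card h1
      rw [Nat.card_Icc, Nat.add_sub_cancel] at this
      exact_mod_cast this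
    have h3 : 1 ≤ Real.sqrt T0 * (1 / Real.sqrt J) := by
      rw [mul_one_div, le_div_iff₀ hsJ, one_mul]
      apply Real.sqrt_le_sqrt
      exact_mod_cast hJT.le
    have h4 : Real.sqrt T0 * (1 / Real.sqrt J) ≤
        (16 * C + Real.sqrt T0) * M * (1 / Real.sqrt J) := by
      apply mul_le_mul_of_nonneg_right _ (by positivity)
      have h5 : Real.sqrt T0 * 1 ≤ Real.sqrt T0 * M :=
        mul_le_mul_of_nonneg_left hM1 (Real.sqrt_nonneg _)
      have h6 : 0 ≤ 16 * C * M := by positivity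
      linarith
    calc (S.card : ℝ) ≤ x * 1 := by linarith
      _ ≤ x * ((16 * C + Real.sqrt T0) * M * (1 / Real.sqrt J)) :=
        mul_le_mul_of_nonneg_left (h3.trans h4) hx0
      _ = _ := by ring
  obtain ⟨Sj, hSj⟩ : ∃ Sj : Bool → Bool → ℕ → Finset ℕ, ∀ b σ j, Sj b σ j = S.filter fun n =>
    ∃ u w : ℕ, Ce y n u w b σ ∧ 2 ^ j < u ∧ u ≤ 2 * 2 ^ j := ⟨_, fun _ _ _ => rfl⟩
  obtain ⟨SB, hSB⟩ : ∃ SB : Bool → Bool → Finset ℕ, ∀ b σ, SB b σ =
    (Ico J (J + x)).biUnion (Sj b σ) := ⟨_, fun _ _ => rfl⟩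
  have h1 : S ⊆ (SB true true ∪ SB true false) ∪ (SB false true ∪ SB false false) := by
    intro n hn
    obtain ⟨hnx, b, σ, u, w, hcd, hu⟩ := hS n hn
    have h2u : 1 ≤ 2 ^ J := Nat.one_le_two_pow
    have hun := DZ_le hcd.1 hcd.2.1 (by omega)
    have hu1 : u - 1 ≠ 0 := by omega
    obtain ⟨j, hjd⟩ : ∃ j, j = Nat.log 2 (u - 1) := ⟨_, rfl⟩
    have h3 : 2 ^ j ≤ u - 1 := by rw [hjd]; exact Nat.pow_log_le_self 2 hu1
    have h4 : u - 1 < 2 ^ (j + 1) := by rw [hjd]; exact Nat.lt_pow_succ_log_self (by norm_num) _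
    have h5 : J ≤ j := by
      rw [hjd]
      exact Nat.le_log_of_pow_le (by norm_num) (by omega)
    have h6 : j < J + x := by
      have h7 : 2 ^ j < 2 ^ x := by
        have := Nat.lt_two_pow_self (n := x)
        omega
      have := (Nat.pow_lt_pow_iff_right (show 1 < 2 by norm_num)).1 h7
      omega
    have h8 : n ∈ SB b σ := by
      rw [hSB, mem_biUnion]
      refine ⟨j, mem_Ico.2 ⟨h5, h6⟩, ?_⟩
      rw [hSj, mem_filter]
      exact ⟨hn, u, w, hcd, by omega, by rw [pow_succ] at h4; omega⟩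
    rw [mem_union, mem_union, mem_union]
    cases b
    · cases σ
      · exact Or.inr (Or.inr h8)
      · exact Or.inr (Or.inl h8)
    · cases σ
      · exact Or.inl (Or.inr h8)
      · exact Or.inl (Or.inl h8)
  have h2 : ∀ b σ, ∀ j ∈ Ico J (J + x), ((Sj b σ j).card : ℝ) ≤
      C * M * x * (1 / (j : ℝ) ^ (3 / 2 : ℝ)) := by
    intro b σ j hjm
    rw [hM]
    refine h b σ y x j (hJT.trans (mem_Ico.1 hjm).1) _ ?_
    intro n hn
    rw [hSj, mem_filter] at hn
    exact ⟨(hS n hn.1).1, hn.2⟩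
  have h4 : ∀ b σ, ((SB b σ).card : ℝ) ≤ C * M * x * (4 / Real.sqrt J) := by
    intro b σ
    have h5 : ((SB b σ).card : ℝ) ≤ ∑ j ∈ Ico J (J + x), ((Sj b σ j).card : ℝ) := by
      rw [hSB]
      exact_mod_cast card_biUnion_le
    refine h5.trans ((sum_le_sum (h2 b σ)).trans ?_)
    rw [← mul_sum]
    have h6 := DZ_tail J hJ x
    have h7 : 0 ≤ 4 / Real.sqrt ((J + x : ℕ) : ℝ) := by positivity
    exact mul_le_mul_of_nonneg_left (by linarith) (by positivity)
  have h5 : (S.card : ℝ) ≤ ((SB true true).card : ℝ) + (SB true false).card +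
      ((SB false true).card + (SB false false).card) := by
    exact_mod_cast (card_le_card h1).trans ((card_union_le _ _).trans
      (add_le_add (card_union_le _ _) (card_union_le _ _)))
  have h6 := h4 true true
  have h7 := h4 true false
  have h8 := h4 false true
  have h9 := h4 false false
  have h10 : C * M * x * (4 / Real.sqrt J) = 4 * C * M * x * (1 / Real.sqrt J) := by ring
  have h11 : 0 ≤ Real.sqrt T0 * M * x * (1 / Real.sqrt J) := by positivity
  have h12 : (16 * C + Real.sqrt T0) * M * x * (1 / Real.sqrt J) =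
      4 * (4 * C * M * x * (1 / Real.sqrt J)) + Real.sqrt T0 * M * x * (1 / Real.sqrt J) := by ring
  rw [h12]
  linarith

end Pool.Agent.H80.FP
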