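import Pool.Agent.H80.FP.DY
import Pool.Agent.H80.FP.AR
import Pool.Agent.H88.FP.BS

/-!
FP FIN: the set of the `n` with `Tst n` has natural density zero.

y with 2/y ≤ ε/8 (numbers divisible by p², p ≥ y), j0 from DY y (ε/4), V = 2^j0, bs_w V (ε/4), bs_u V (ε/4).
-/

set_option autoImplicit false

namespace Pool.Agent.H80.FP

open Finset Filter Topology

/-- numbers divisible by a large square -/
private theorem FIN_sq (y x : ℕ) (hy : 1 ≤ y) (S : Finset ℕ)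
    (hS : ∀ n ∈ S, 1 ≤ n ∧ n ≤ x ∧ ∃ p : ℕ, y < p ∧ p ^ 2 ∣ n) : (S.card : ℝ) ≤ 2 / y * x := by
  classical
  have h1 : S ⊆ (Ioo y (x + 1)).biUnion fun p => (Ioc 0 x).filter fun n => p ^ 2 ∣ n := by
    intro n hn
    obtain ⟨hn1, hnx, p, hp, hpn⟩ := hS n hn
    rw [mem_biUnion]
    refine ⟨p, mem_Ioo.2 ⟨hp, ?_⟩, mem_filter.2 ⟨mem_Ioc.2 ⟨hn1, hnx⟩, hpn⟩⟩
    have h2 := Nat.le_of_dvd hn1 hpn
    have h3 : p ≤ p ^ 2 := Nat.le_self_pow (by norm_num) p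
    omega
  have h2 : ∀ p ∈ Ioo y (x + 1), ((((Ioc 0 x).filter fun n => p ^ 2 ∣ n).card : ℕ) : ℝ) ≤
      x * ((p : ℝ) ^ 2)⁻¹ := by
    intro p _
    rw [Nat.Ioc_filter_dvd_card_eq_div]
    have h3 := Nat.cast_div_le (m := x) (n := p ^ 2) (α := ℝ)
    push_cast at h3
    rw [div_eq_mul_inv] at h3
    exact h3
  have h3 : (S.card : ℝ) ≤ ∑ p ∈ Ioo y (x + 1), ((((Ioc 0 x).filter fun n => p ^ 2 ∣ n).card : ℕ) : ℝ) := by
    exact_mod_cast (card_le_card h1).trans card_biUnion_le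
  refine h3.trans ((sum_le_sum h2).trans ?_)
  rw [← mul_sum]
  have h4 := sum_Ioo_inv_sq_le (α := ℝ) y (x + 1)
  have hy' : (0 : ℝ) < y := by exact_mod_cast hy
  have h5 : (2 : ℝ) / ((y : ℝ) + 1) ≤ 2 / y :=
    div_le_div_of_nonneg_left (by norm_num) hy' (by linarith)
  have hx0 : (0 : ℝ) ≤ x := Nat.cast_nonneg x
  calc (x : ℝ) * ∑ p ∈ Ioo y (x + 1), ((p : ℝ) ^ 2)⁻¹ ≤ x * (2 / y) :=
        mul_le_mul_of_nonneg_left (h4.trans h5) hx0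
    _ = 2 / y * x := by ring

theorem Tst_eventually (ε : ℝ) (hε : 0 < ε) : ∀ᶠ x : ℕ in atTop, ∀ S : Finset ℕ,
    (∀ n ∈ S, 1 ≤ n ∧ n ≤ x ∧ Tst n) → (S.card : ℝ) ≤ ε * x := by
  classical
  obtain ⟨y, hy⟩ := exists_nat_gt (8 / ε)
  have hy0 : (0 : ℝ) < y := lt_trans (by positivity) hy
  have hy1 : 1 ≤ y := by exact_mod_cast hy0
  have hye : 2 / (y : ℝ) ≤ ε / 4 := by
    rw [div_lt_iff₀ hε] at hy
    rw [div_le_iff₀ hy0]
    linarith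
  obtain ⟨j0, hDY⟩ := DY (y + 1) (ε / 4) (by positivity)
  filter_upwards [bs_w (2 ^ j0) (ε / 4) (by positivity), bs_u (2 ^ j0) (ε / 4) (by positivity)]
    with x hw hu S hS
  set S1 := S.filter fun n => ∃ p : ℕ, y < p ∧ p ^ 2 ∣ n with hS1
  set S2 := S.filter fun n => n ≤ x ∧ ∃ (b : Bool) (u w : ℕ), Cd (y + 1) n u w b ∧ 2 ^ j0 < u with hS2
  set S3 := S.filter fun n => n ≤ x ∧ ∃ u w : ℕ, u * w = n ^ 2 + n + 1 ∧ u ≤ 2 ^ j0 ∧ w.Prime with hS3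
  set S4 := S.filter fun n => n ≤ x ∧ ∃ q : ℕ, q.Prime ∧ q ≠ 2 ∧ q ≤ 2 ^ j0 ∧
      ∀ p : ℕ, p.Prime → p ∣ n → ¬ p ^ 2 ∣ n → IsSquare (p : ZMod q) with hS4
  have hsub : S ⊆ (S1 ∪ S2) ∪ (S3 ∪ S4) := by
    intro n hn
    obtain ⟨hn1, hnx, q, hq, hqn, hsq⟩ := hS n hn
    rw [mem_union, mem_union, mem_union]
    by_cases h1 : ∃ p : ℕ, y < p ∧ p ^ 2 ∣ n
    · exact Or.inl (Or.inl (mem_filter.2 ⟨hn, h1⟩))
    push Not at h1
    have hodd := AR_odd hqn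
    obtain ⟨m, hm⟩ := hqn
    have hqn : q ∣ n ^ 2 + n + 1 := ⟨m, hm⟩
    have hqs : ∀ p : ℕ, p.Prime → p % 4 = 1 → y + 1 ≤ p → p ∣ n → IsSquare (q : ZMod p) := by
      intro p hp hp4 hpy hpn
      exact AR_rec hq hqn hp hp4 (hsq p hp hpn (h1 p (by omega)))
    rcases le_or_gt q m with hqm | hqm
    · by_cases hV : q ≤ 2 ^ j0
      · exact Or.inr (Or.inr (mem_filter.2 ⟨hn, hnx, q, hq, hodd, hV, hsq⟩))
      · refine Or.inl (Or.inr (mem_filter.2 ⟨hn, hnx, true, q, m, ⟨hm.symm, hqm, hq, hqs⟩, ?_⟩))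
        omega
    · by_cases hV : m ≤ 2 ^ j0
      · exact Or.inr (Or.inl (mem_filter.2 ⟨hn, hnx, m, q, by rw [mul_comm]; exact hm.symm, hV, hq⟩))
      · refine Or.inl (Or.inr (mem_filter.2 ⟨hn, hnx, false, m, q,
          ⟨by rw [mul_comm]; exact hm.symm, hqm.le, hq, ?_⟩, ?_⟩))
        · intro p hp hp4 hpy hpn
          exact AR_other (by rw [mul_comm]; exact hm.symm) hpn (hqs p hp hp4 hpy hpn)
        · omega
  have c1 : (S1.card : ℝ) ≤ ε / 4 * x := by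
    refine (FIN_sq y x hy1 S1 ?_).trans (mul_le_mul_of_nonneg_right hye (Nat.cast_nonneg x))
    intro n hn
    have h := mem_filter.1 hn
    exact ⟨(hS n h.1).1, (hS n h.1).2.1, h.2⟩
  have c2 : (S2.card : ℝ) ≤ ε / 4 * x := hDY x S2 fun n hn => (mem_filter.1 hn).2
  have c3 : (S3.card : ℝ) ≤ ε / 4 * x := hw S3 fun n hn => (mem_filter.1 hn).2
  have c4 : (S4.card : ℝ) ≤ ε / 4 * x := hu S4 fun n hn => (mem_filter.1 hn).2
  have h1 : (S.card : ℝ) ≤ (S1.card : ℝ) + S2.card + (S3.card + S4.card) := by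
    exact_mod_cast (card_le_card hsub).trans ((card_union_le _ _).trans
      (add_le_add (card_union_le _ _) (card_union_le _ _)))
  linarith

theorem density (Q : ℕ → Prop) (hQ : ∀ n, Q n → 1 ≤ n ∧ Tst n) :
    Tendsto (fun x : ℕ => ((Set.ncard {n : ℕ | n ≤ x ∧ Q n} : ℕ) : ℝ) / x) atTop (𝓝 0) := by
  classical
  rw [Metric.tendsto_atTop]
  intro ε hε
  obtain ⟨X, hX⟩ := eventually_atTop.1 (Tst_eventually (ε / 2) (by positivity))
  refine ⟨max X 1, fun x hx => ?_⟩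
  have hx1 : X ≤ x := (le_max_left _ _).trans hx
  have hx2 : 1 ≤ x := (le_max_right _ _).trans hx
  have hx0 : (0 : ℝ) < x := by exact_mod_cast hx2
  rw [Real.dist_eq, sub_zero, abs_of_nonneg (by positivity), div_lt_iff₀ hx0]
  have h1 : {n : ℕ | n ≤ x ∧ Q n} = (((range (x + 1)).filter Q : Finset ℕ) : Set ℕ) := by
    ext n
    simp only [coe_filter, mem_range, Set.mem_ofPred_eq, Nat.lt_succ_iff]
  rw [h1, Set.ncard_coe_finset]
  have h2 := hX x hx1 ((range (x + 1)).filter Q) (by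
    intro n hn
    obtain ⟨h2, h3⟩ := mem_filter.1 hn
    have h4 := hQ n h3
    exact ⟨h4.1, Nat.lt_succ_iff.1 (mem_range.1 h2), h4.2⟩)
  nlinarith

end Pool.Agent.H80.FP
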