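import Pool.Agent.H49.PPR.SM
import Pool.Agent.H80.FP.DB

/-!
FP SB: density sums: `∑ dn p (BB b y p) ≥ (5/4) log log z - C(y)`.
dnB_lower, rho_sum3 (`∑_{p ≡ 1 mod 3} rho p ≥ 2 log log z - C`), sum_mod4' (`∑_{p ≡ 1 mod 4} 1/p ≥ (1/2) log log z - C`) and DS_tel.
-/

set_option autoImplicit false

namespace Pool.Agent.H80.FP

open Finset Pool.Agent.H37.PPC Pool.Agent.H37.PPD Pool.Agent.H37.PPE Pool.Agent.H49.PPR

private theorem SB_half (a : ℕ) (ha : 2 ≤ a) : ∃ C : ℝ, 0 < C ∧ ∀ z : ℕ, 2 ≤ z →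
    (1 / 4) * ll z - C ≤ ∑ p ∈ (pr a (z + 1)).filter (fun p => p % 4 = 1),
      ((1 / 2) * ((1 : ℝ) / p) - ((1 : ℝ) / p - 1 / (p + 1))) := by
  obtain ⟨C1, hC1, h1⟩ := sum_mod4'
  refine ⟨|ll a| + C1 + 1, by positivity, ?_⟩
  intro z hz
  have h5 := le_abs_self (ll a)
  have h5' := neg_abs_le (ll a)
  have h0 := abs_nonneg (ll a)
  rcases Nat.lt_or_ge (z + 1) a with h | h
  · have he : (pr a (z + 1)).filter (fun p => p % 4 = 1) = ∅ := by
      rw [Finset.eq_empty_iff_forall_notMem]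
      intro x hx
      rw [Finset.mem_filter, mem_pr] at hx
      omega
    rw [he, Finset.sum_empty]
    have h6 := DS_ll hz (show z ≤ a by omega)
    linarith
  · have h3 := h1 a (z + 1) ha h
    have h4 := DS_ll hz (Nat.le_succ z)
    have h7 : ll (z + 1) = ll z.succ := rfl
    rw [← h7] at h4
    have h8 : ∑ p ∈ (pr a (z + 1)).filter (fun p => p % 4 = 1), ((1 : ℝ) / p - 1 / (p + 1)) ≤
        ∑ p ∈ Ico a (z + 1), ((1 : ℝ) / p - 1 / (p + 1)) := by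
      apply Finset.sum_le_sum_of_subset_of_nonneg
      · intro p hp
        rw [Finset.mem_filter, mem_pr] at hp
        rw [Finset.mem_Ico]
        exact hp.1.1
      · intro p hp _
        rw [Finset.mem_Ico] at hp
        have h3 : (0 : ℝ) < p := by
          have : 0 < p := by omega
          exact_mod_cast this
        have h4 : (1 : ℝ) / (p + 1) ≤ 1 / p := one_div_le_one_div_of_le h3 (by linarith)
        linarith
    have h9 := DS_tel (z + 1) a (by omega)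
    rw [Finset.sum_sub_distrib, ← Finset.mul_sum]
    unfold rs at h3
    linarith

theorem dnB_sum (y : ℕ) : ∃ C : ℝ, 0 < C ∧ ∀ (b : Bool) (z : ℕ), 2 ≤ z →
    (5 / 4) * ll z - C ≤ ∑ p ∈ (pr 5 (z + 1)).filter (fun p => p % 3 = 1 ∨ (p % 4 = 1 ∧ y ≤ p)),
      dn p (BB b y p) := by
  obtain ⟨C1, hC1, h1⟩ := SB_half (max 5 y) (by have := le_max_left 5 y; omega)
  obtain ⟨C2, hC2, h2⟩ := rho_sum3
  refine ⟨C1 + C2, by positivity, ?_⟩
  intro b z hz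
  have m1 := h1 z hz
  have m2 := h2 z hz
  have h3 : ∑ p ∈ (pr 5 (z + 1)).filter (fun p => p % 3 = 1), rho p =
      ∑ p ∈ (pr 5 (z + 1)).filter (fun p => p % 3 = 1 ∨ (p % 4 = 1 ∧ y ≤ p)),
        (if p % 3 = 1 then rho p else 0) := by
    rw [← Finset.sum_filter, Finset.filter_filter]
    refine Finset.sum_congr ?_ fun _ _ => rfl
    ext p
    simp only [Finset.mem_filter]
    constructor
    · rintro ⟨h4, h5⟩
      exact ⟨h4, Or.inl h5, h5⟩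
    · rintro ⟨h4, -, h5⟩
      exact ⟨h4, h5⟩
  have h3' : ∑ p ∈ (pr (max 5 y) (z + 1)).filter (fun p => p % 4 = 1),
        ((1 / 2) * ((1 : ℝ) / p) - ((1 : ℝ) / p - 1 / (p + 1))) =
      ∑ p ∈ (pr 5 (z + 1)).filter (fun p => p % 3 = 1 ∨ (p % 4 = 1 ∧ y ≤ p)),
        (if p % 4 = 1 ∧ y ≤ p then (1 / 2) * ((1 : ℝ) / p) - ((1 : ℝ) / p - 1 / (p + 1)) else 0) := by
    rw [← Finset.sum_filter, Finset.filter_filter]
    refine Finset.sum_congr ?_ fun _ _ => rfl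
    ext p
    simp only [Finset.mem_filter, mem_pr, max_le_iff]
    constructor
    · rintro ⟨⟨⟨⟨h4, h5⟩, h6⟩, h7⟩, h8⟩
      exact ⟨⟨⟨h4, h6⟩, h7⟩, Or.inr ⟨h8, h5⟩, h8, h5⟩
    · rintro ⟨⟨⟨h4, h6⟩, h7⟩, -, h8, h5⟩
      exact ⟨⟨⟨⟨h4, h5⟩, h6⟩, h7⟩, h8⟩
  have h4 : ∑ p ∈ (pr 5 (z + 1)).filter (fun p => p % 3 = 1 ∨ (p % 4 = 1 ∧ y ≤ p)),
      ((1 / 2) * (if p % 3 = 1 then rho p else 0) +
      (if p % 4 = 1 ∧ y ≤ p then (1 / 2) * ((1 : ℝ) / p) - ((1 : ℝ) / p - 1 / (p + 1)) else 0)) ≤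
      ∑ p ∈ (pr 5 (z + 1)).filter (fun p => p % 3 = 1 ∨ (p % 4 = 1 ∧ y ≤ p)), dn p (BB b y p) := by
    refine Finset.sum_le_sum fun p hp => ?_
    rw [Finset.mem_filter, mem_pr] at hp
    exact dnB_lower b y p hp.1.2 hp.1.1.1
  rw [Finset.sum_add_distrib, ← Finset.mul_sum, ← h3, ← h3'] at h4
  linarith

end Pool.Agent.H80.FP
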