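import Pool.Agent.H49.PPR.SM
import Pool.Agent.H80.FP.DC

/-!
FP SC: density sums, uniform in `y`: `∑ dn p (BC b σ y p) ≥ (3/2) log log z - (1/2) log log (max 5 y) - C`.
dnC_lower, rho_sum3 (`∑_{p ≡ 1 mod 3} rho p ≥ 2 log log z - C`), mertens_two and DS_tel.
-/

set_option autoImplicit false

namespace Pool.Agent.H80.FP

open Finset Pool.Agent.H37.PPC Pool.Agent.H37.PPD Pool.Agent.H37.PPE Pool.Agent.H49.PPR

private theorem SC_half : ∃ C : ℝ, 0 < C ∧ ∀ a z : ℕ, 2 ≤ a → 2 ≤ z →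
    (1 / 2) * ll z - (1 / 2) * ll a - C ≤ ∑ p ∈ pr a (z + 1),
      ((1 / 2) * ((1 : ℝ) / p) - ((1 : ℝ) / p - 1 / (p + 1))) := by
  obtain ⟨C1, hC1, h1⟩ := mertens_two
  refine ⟨C1 + 1, by positivity, ?_⟩
  intro a z ha hz
  rcases Nat.lt_or_ge (z + 1) a with h | h
  · have he : pr a (z + 1) = ∅ := by
      rw [Finset.eq_empty_iff_forall_notMem]
      intro x hx
      rw [mem_pr] at hx
      omega
    rw [he, Finset.sum_empty]
    have h6 := DS_ll hz (show z ≤ a by omega)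
    linarith
  · have h3 := (abs_le.1 (h1 a (z + 1) ha h)).1
    have h4 := DS_ll hz (Nat.le_succ z)
    have h7 : ll (z + 1) = ll z.succ := rfl
    rw [← h7] at h4
    have h8 : ∑ p ∈ pr a (z + 1), ((1 : ℝ) / p - 1 / (p + 1)) ≤
        ∑ p ∈ Ico a (z + 1), ((1 : ℝ) / p - 1 / (p + 1)) := by
      apply Finset.sum_le_sum_of_subset_of_nonneg
      · intro p hp
        rw [mem_pr] at hp
        rw [Finset.mem_Ico]
        exact hp.1
      · intro p hp _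
        rw [Finset.mem_Ico] at hp
        have h3 : (0 : ℝ) < p := by
          have : 0 < p := by omega
          exact_mod_cast this
        have h4 : (1 : ℝ) / (p + 1) ≤ 1 / p := one_div_le_one_div_of_le h3 (by linarith)
        linarith
    have h9 := DS_tel (z + 1) a (by omega)
    rw [Finset.sum_sub_distrib, ← Finset.mul_sum]
    have e1 : ll (z + 1) = Real.log (Real.log ((z + 1 : ℕ) : ℝ)) := rfl
    have e2 : ll a = Real.log (Real.log (a : ℝ)) := rfl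
    rw [e1] at h4
    rw [e2]
    linarith

theorem dnC_sum : ∃ C : ℝ, 0 < C ∧ ∀ (b σ : Bool) (y z : ℕ), 2 ≤ z →
    (3 / 2) * ll z - (1 / 2) * ll (max 5 y) - C ≤
      ∑ p ∈ (pr 5 (z + 1)).filter (fun p => p % 3 = 1 ∨ y ≤ p), dn p (BC b σ y p) := by
  obtain ⟨C1, hC1, h1⟩ := SC_half
  obtain ⟨C2, hC2, h2⟩ := rho_sum3
  refine ⟨C1 + C2, by positivity, ?_⟩
  intro b σ y z hz
  have m1 := h1 (max 5 y) z (by have := le_max_left 5 y; omega) hz
  have m2 := h2 z hz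
  have h3 : ∑ p ∈ (pr 5 (z + 1)).filter (fun p => p % 3 = 1), rho p =
      ∑ p ∈ (pr 5 (z + 1)).filter (fun p => p % 3 = 1 ∨ y ≤ p),
        (if p % 3 = 1 then rho p else 0) := by
    rw [← Finset.sum_filter, Finset.filter_filter]
    refine Finset.sum_congr ?_ fun _ _ => rfl
    ext p
    simp only [Finset.mem_filter]
    constructor
    · rintro ⟨h4, h5⟩
      exact ⟨h4, Or.inl h5, h5⟩
    · rintro ⟨h4, -, h5⟩
      exact ⟨h4, h5⟩
  have h3' : ∑ p ∈ pr (max 5 y) (z + 1), ((1 / 2) * ((1 : ℝ) / p) - ((1 : ℝ) / p - 1 / (p + 1))) =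
      ∑ p ∈ (pr 5 (z + 1)).filter (fun p => p % 3 = 1 ∨ y ≤ p),
        (if y ≤ p then (1 / 2) * ((1 : ℝ) / p) - ((1 : ℝ) / p - 1 / (p + 1)) else 0) := by
    rw [← Finset.sum_filter, Finset.filter_filter]
    refine Finset.sum_congr ?_ fun _ _ => rfl
    ext p
    simp only [Finset.mem_filter, mem_pr, max_le_iff]
    constructor
    · rintro ⟨⟨⟨h4, h5⟩, h6⟩, h7⟩
      exact ⟨⟨⟨h4, h6⟩, h7⟩, Or.inr h5, h5⟩
    · rintro ⟨⟨⟨h4, h6⟩, h7⟩, -, h5⟩
      exact ⟨⟨⟨h4, h5⟩, h6⟩, h7⟩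
  have h4 : ∑ p ∈ (pr 5 (z + 1)).filter (fun p => p % 3 = 1 ∨ y ≤ p),
      ((1 / 2) * (if p % 3 = 1 then rho p else 0) +
      (if y ≤ p then (1 / 2) * ((1 : ℝ) / p) - ((1 : ℝ) / p - 1 / (p + 1)) else 0)) ≤
      ∑ p ∈ (pr 5 (z + 1)).filter (fun p => p % 3 = 1 ∨ y ≤ p), dn p (BC b σ y p) := by
    refine Finset.sum_le_sum fun p hp => ?_
    rw [Finset.mem_filter, mem_pr] at hp
    exact dnC_lower b σ y p hp.1.2 hp.1.1.1
  rw [Finset.sum_add_distrib, ← Finset.mul_sum, ← h3, ← h3'] at h4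
  linarith

end Pool.Agent.H80.FP
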