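import Pool.Agent.H49.PPR.SV
import Pool.Agent.H80.FP.SC

/-!
FP IV (rate version of IU): integers n ≤ x such that n²+n+1 = u w, U < u ≤ 2U, no prime p with 5 ≤ p ≤ z divides u (if b; w if not b), and u has
the right symbol `Sg σ p` mod every prime p, max(5,y) ≤ p ≤ z, which divides n: at most C (log max(5,y))^(1/2) x (log z)^(-3/2) for z^T0 ≤ U ≤ x.

Like Pool/Agent/H49/PPR/IA.lean with the sieve SV 6, B = BC b σ y, P = (pr 5 (z+1)).filter (p % 3 = 1 ∨ y ≤ p), dnC_bd, dnC_sum.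
 R = Nat.sqrt (U/3), L = (x+1)/U + 1, L R² ≤ x, T0 = 2 K + 2.
-/

set_option autoImplicit false

namespace Pool.Agent.H80.FP

open Finset Pool.Agent.H37.PPC Pool.Agent.H37.PPD Pool.Agent.H37.PPE Pool.Agent.H49.PPR

/-- `z^(-3) ≤ (log z)^(-a)` for `0 ≤ a ≤ 3` -/
private theorem IV_cube {z : ℕ} (hz : 2 ≤ z) {a : ℝ} (ha : 0 ≤ a) (ha3 : a ≤ 3) :
    1 / (z : ℝ) ^ 3 ≤ Real.exp (-(a * ll z)) := by
  have hz1 : (1 : ℝ) < z := by exact_mod_cast (by omega : 1 < z)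
  have hz0 : (0 : ℝ) < z := by linarith
  have hlog : 0 < Real.log z := Real.log_pos hz1
  have h1 : a * ll z ≤ Real.log ((z : ℝ) ^ 3) := by
    unfold ll
    rw [Real.log_pow]
    have h2 : Real.log (Real.log z) ≤ Real.log z := by
      have := Real.log_le_sub_one_of_pos hlog
      linarith
    push_cast
    calc a * Real.log (Real.log z) ≤ a * Real.log z := mul_le_mul_of_nonneg_left h2 ha
      _ ≤ 3 * Real.log z := mul_le_mul_of_nonneg_right ha3 hlog.le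
  rw [Real.exp_neg, one_div]
  apply inv_anti₀ (Real.exp_pos _)
  rw [← Real.le_log_iff_exp_le (by positivity)]
  exact h1

private theorem IV_point {x U n u w R L : ℕ} (hR1 : 1 ≤ R) (hR2 : 3 * (R * R) ≤ U)
    (hR3 : U < 3 * ((R + 1) * (R + 1))) (hL : x + 1 < L * U) (hn : n ≤ x)
    (huw : u * w = n ^ 2 + n + 1) (hU : U < u) (hU2 : u ≤ 2 * U) :
    ∃ y ∈ box R L, y.1 * y.2.2 + y.2.1 * y.2.2 + y.2.1 * qq y = n ∧
      Wn true y.1 y.2.1 y.2.2 (qq y) = u ∧ Wn false y.1 y.2.1 y.2.2 (qq y) = w := by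
  obtain ⟨r, s, t, q, hdet, hu, hnn, hw, hr, hs1, hs2, hr1, hr2, ht⟩ := RD1 u w n
    (by exact_mod_cast (by omega : 0 < u)) (by exact_mod_cast huw)
  have hUu : (U : ℤ) < u := by exact_mod_cast hU
  have hUu2 : (u : ℤ) ≤ 2 * U := by exact_mod_cast hU2
  have hR2' : 3 * ((R : ℤ) * R) ≤ U := by exact_mod_cast hR2
  have hR3' : (U : ℤ) < 3 * (((R : ℤ) + 1) * (R + 1)) := by exact_mod_cast hR3
  have hR1' : (1 : ℤ) ≤ R := by exact_mod_cast hR1
  have hrR : (R : ℤ) < r := by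
    by_contra hcon
    push Not at hcon
    nlinarith
  have hr8 : r < 8 * (R : ℤ) := by
    by_contra hcon
    push Not at hcon
    nlinarith
  have hL' : (x : ℤ) + 1 < L * U := by exact_mod_cast hL
  have hn' : (n : ℤ) ≤ x := by exact_mod_cast hn
  have hn0 : (0 : ℤ) ≤ n := Int.natCast_nonneg n
  have hL0 : (0 : ℤ) ≤ L := Int.natCast_nonneg L
  have htL : |t| < L * r := by
    by_contra hcon
    push Not at hcon
    rw [abs_of_nonneg hn0] at ht
    have h1 : (L : ℤ) * r * u ≤ |t| * u := mul_le_mul_of_nonneg_right hcon (by omega)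
    have h2 : (L * u : ℤ) * r ≤ (n + 1) * r := by
      calc (L * u : ℤ) * r = L * r * u := by ring
        _ ≤ |t| * u := h1
        _ ≤ _ := ht
    have h3 : (L * u : ℤ) ≤ n + 1 := le_of_mul_le_mul_right h2 hr
    have h4 : (L * U : ℤ) ≤ L * u := mul_le_mul_of_nonneg_left hUu.le hL0
    linarith
  obtain ⟨ht1, ht2⟩ := abs_lt.1 htL
  have hLr : (L : ℤ) * r ≤ 8 * R * L := by nlinarith
  have hrq : r * q = 1 + s * t := by linarith
  have hqq : qq (r, s, t) = q := by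
    show (1 + s * t) / r = q
    rw [← hrq, Int.mul_ediv_cancel_left _ hr.ne']
  refine ⟨(r, s, t), ?_, ?_, ?_, ?_⟩
  · simp only [Pool.Agent.H37.PPE.box, mem_filter, mem_product, mem_Ico]
    refine ⟨⟨⟨hrR.le, hr8⟩, ⟨by omega, by omega⟩, ?_, ?_⟩, by omega, hs2, by linarith, ht2,
      ⟨q, hrq.symm⟩⟩
    · linarith
    · linarith
  · rw [hqq]
    exact hnn.symm
  · exact hu.symm
  · rw [hqq]
    exact hw.symm

theorem ll5_nonneg (y : ℕ) : 0 ≤ ll (max 5 y) := by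
  have h1 : (1 : ℝ) ≤ Real.log 5 := by
    have h2 := Real.exp_one_lt_d9
    rw [Real.le_log_iff_exp_le (by norm_num)]
    linarith
  have h3 : Real.log 5 ≤ Real.log ((max 5 y : ℕ) : ℝ) := by
    apply Real.log_le_log (by norm_num)
    exact_mod_cast le_max_left 5 y
  unfold ll
  exact Real.log_nonneg (h1.trans h3)

theorem IV : ∃ T0 : ℕ, 1 ≤ T0 ∧ ∃ C : ℝ, 0 < C ∧ ∀ (b σ : Bool) (y x U z : ℕ), 2 ≤ z →
    z ^ T0 ≤ U → U ≤ x →
    ∀ S : Finset ℕ, (∀ n ∈ S, n ≤ x ∧ ∃ u w : ℕ, u * w = n ^ 2 + n + 1 ∧ U < u ∧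
      u ≤ 2 * U ∧ (∀ p ∈ pr 5 (z + 1), ¬ p ∣ (bif b then u else w)) ∧
      ∀ p ∈ pr 5 (z + 1), y ≤ p → p ∣ n → Sg σ p (u : ZMod p)) →
    (S.card : ℝ) ≤ C * Real.exp ((1 / 2) * ll (max 5 y)) * x * Real.exp (-((3 / 2) * ll z)) := by
  classical
  obtain ⟨K, C, hC, hsv⟩ := SV 6
  obtain ⟨Cr, hCr, hsum⟩ := dnC_sum
  refine ⟨2 * K + 2, by omega, C * (Real.exp Cr + 1), by positivity, ?_⟩
  intro b σ y x U z hz hzU hUx S hS
  obtain ⟨R, hRdef⟩ : ∃ R : ℕ, R = Nat.sqrt (U / 3) := ⟨_, rfl⟩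
  obtain ⟨L, hLdef⟩ : ∃ L : ℕ, L = (x + 1) / U + 1 := ⟨_, rfl⟩
  have hU0 : 0 < U := lt_of_lt_of_le (Nat.pow_pos (by omega)) hzU
  have hzK : z ^ K ≤ R := by
    rw [hRdef, Nat.le_sqrt, Nat.le_div_iff_mul_le (by norm_num)]
    calc z ^ K * z ^ K * 3 ≤ z ^ K * z ^ K * z ^ 2 := by
          apply Nat.mul_le_mul_left
          nlinarith
      _ = z ^ (2 * K + 2) := by rw [← pow_add, ← pow_add]; congr 1; omega
      _ ≤ U := hzU
  have hzK1 : 1 ≤ z ^ K := Nat.one_le_pow _ _ (by omega)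
  have hR1 : 1 ≤ R := hzK1.trans hzK
  have hR2 : 3 * (R * R) ≤ U := by
    have h1 : R * R ≤ U / 3 := by rw [hRdef]; exact Nat.sqrt_le _
    omega
  have hR3 : U < 3 * ((R + 1) * (R + 1)) := by
    have h1 : U / 3 < (R + 1) * (R + 1) := by rw [hRdef]; exact Nat.lt_succ_sqrt _
    omega
  have hL1 : 1 ≤ L := by rw [hLdef]; exact Nat.le_add_left 1 _
  have hLU : x + 1 < L * U := by
    rw [hLdef]
    have h1 := Nat.div_add_mod (x + 1) U
    have h2 := Nat.mod_lt (x + 1) hU0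
    calc x + 1 = U * ((x + 1) / U) + (x + 1) % U := h1.symm
      _ < U * ((x + 1) / U) + U := by omega
      _ = ((x + 1) / U + 1) * U := by ring
  -- the injection
  obtain ⟨P, hP⟩ : ∃ P : Finset ℕ, P = (pr 5 (z + 1)).filter
    (fun p => p % 3 = 1 ∨ y ≤ p) := ⟨_, rfl⟩
  have hPm : ∀ p ∈ P, p ∈ pr 5 (z + 1) ∧ p.Prime ∧ 5 ≤ p ∧ (p % 3 = 1 ∨ y ≤ p) := by
    intro p hp
    rw [hP, mem_filter] at hp
    exact ⟨hp.1, (mem_pr.1 hp.1).2, (mem_pr.1 hp.1).1.1, hp.2⟩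
  have hcard : (S.card : ℝ) ≤ (((box R L).filter (fun a : ℤ × ℤ × ℤ => ∀ p ∈ P,
      ¬ BC b σ y p a.1 a.2.1 a.2.2 (qq a))).card : ℝ) := by
    have hsub : S ⊆ ((box R L).filter (fun a : ℤ × ℤ × ℤ => ∀ p ∈ P,
        ¬ BC b σ y p a.1 a.2.1 a.2.2 (qq a))).image
        (fun y : ℤ × ℤ × ℤ => (y.1 * y.2.2 + y.2.1 * y.2.2 + y.2.1 * qq y).toNat) := by
      intro n hn
      obtain ⟨hnx, u, w, huw, hUu, hu2, hp, hsq⟩ := hS n hn
      obtain ⟨y, hy, hyn, hyu, hyw⟩ := IV_point hR1 hR2 hR3 hLU hnx huw hUu hu2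
      rw [mem_image]
      refine ⟨y, ?_, by rw [hyn, Int.toNat_natCast]⟩
      rw [mem_filter]
      refine ⟨hy, ?_⟩
      intro p hpP hB
      obtain ⟨hp1, hp2, hp3, hp4⟩ := hPm p hpP
      rcases hB with hdvd | ⟨h5, hpn, hns⟩
      · have h6 := hp p hp1
        cases b
        · rw [hyw] at hdvd
          exact h6 (by simpa using (by exact_mod_cast hdvd : p ∣ w))
        · rw [hyu] at hdvd
          exact h6 (by simpa using (by exact_mod_cast hdvd : p ∣ u))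
      · rw [hyn] at hpn
        have hyu' : y.1 ^ 2 + y.1 * y.2.1 + y.2.1 ^ 2 = u := hyu
        rw [hyu', Int.cast_natCast] at hns
        exact hns (hsq p hp1 h5 (by exact_mod_cast hpn))
    exact_mod_cast (Finset.card_le_card hsub).trans Finset.card_image_le
  have hsieve := hsv (BC b σ y) z P hz (by
      intro p hp
      obtain ⟨hp1, hp2, hp3, hp4⟩ := hPm p hp
      have h1 := mem_pr.1 hp1
      exact mem_pr.2 ⟨⟨by omega, h1.1.2⟩, hp2⟩) (fun p _ => Per_BC b σ y p) (by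
      intro p hp
      obtain ⟨hp1, hp2, hp3, hp4⟩ := hPm p hp
      exact_mod_cast dnC_bd b σ y p hp2 hp3 hp4) R L hL1 hzK
  -- analytic part
  have hx1 : (1 : ℝ) ≤ x := by exact_mod_cast (by omega : 1 ≤ x)
  have hU0' : (0 : ℝ) < U := by exact_mod_cast hU0
  have hR0 : (0 : ℝ) < R := by exact_mod_cast hR1
  have hLR : (L : ℝ) * (R : ℝ) ^ 2 ≤ x := by
    have h1 : (L : ℝ) ≤ ((x : ℝ) + 1) / U + 1 := by
      rw [hLdef]
      push_cast
      have := Nat.cast_div_le (m := x + 1) (n := U) (α := ℝ)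
      push_cast at this
      linarith
    have h2 : (R : ℝ) ^ 2 ≤ U / 3 := by
      have : (3 * (R * R) : ℝ) ≤ U := by exact_mod_cast hR2
      rw [le_div_iff₀ (by norm_num)]
      nlinarith
    have h3 : (U : ℝ) ≤ x := by exact_mod_cast hUx
    calc (L : ℝ) * (R : ℝ) ^ 2 ≤ (((x : ℝ) + 1) / U + 1) * (U / 3) :=
          mul_le_mul h1 h2 (by positivity) (by positivity)
      _ = ((x : ℝ) + 1 + U) / 3 := by field_simp
      _ ≤ x := by linarith
  obtain ⟨M, hM⟩ : ∃ M, M = Real.exp ((1 / 2) * ll (max 5 y)) := ⟨_, rfl⟩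
  have hM1 : 1 ≤ M := by
    rw [hM]
    apply Real.one_le_exp
    have := ll5_nonneg y
    positivity
  have hexp : Real.exp (-∑ p ∈ P, dn p (BC b σ y p)) ≤
      M * (Real.exp Cr * Real.exp (-((3 / 2) * ll z))) := by
    rw [hM, ← Real.exp_add, ← Real.exp_add]
    apply Real.exp_le_exp.2
    have := hsum b σ y z hz
    rw [hP]
    linarith
  have hz3 : 1 / (z : ℝ) ^ 3 ≤ M * Real.exp (-((3 / 2) * ll z)) := by
    have h1 := IV_cube hz (a := 3 / 2) (by norm_num) (by norm_num)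
    have h2 : 1 * Real.exp (-((3 / 2) * ll z)) ≤ M * Real.exp (-((3 / 2) * ll z)) :=
      mul_le_mul_of_nonneg_right hM1 (Real.exp_pos _).le
    linarith
  rw [← hM]
  calc (S.card : ℝ) ≤ _ := hcard
    _ ≤ C * (L * (R : ℝ) ^ 2) * (Real.exp (-∑ p ∈ P, dn p (BC b σ y p)) + 1 / (z : ℝ) ^ 3) := by
        convert hsieve
    _ ≤ C * x * (M * (Real.exp Cr * Real.exp (-((3 / 2) * ll z))) +
          M * Real.exp (-((3 / 2) * ll z))) := by
        apply mul_le_mul (mul_le_mul_of_nonneg_left hLR hC.le) (add_le_add hexp hz3) (by positivity)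
          (by positivity)
    _ = C * (Real.exp Cr + 1) * M * x * Real.exp (-((3 / 2) * ll z)) := by ring

end Pool.Agent.H80.FP
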